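import Mathlib

/-!
# Linear images of measures with densities
-/

set_option autoImplicit false
set_option linter.unusedSectionVars false

namespace Pool.Agent.X166.DS

open MeasureTheory Set Filter Topology
open scoped ENNReal

variable {E F : Type*} [NormedAddCommGroup E] [NormedSpace ℝ E] [MeasurableSpace E] [BorelSpace E]
  [FiniteDimensional ℝ E]
  [NormedAddCommGroup F] [NormedSpace ℝ F] [MeasurableSpace F] [BorelSpace F]
  [FiniteDimensional ℝ F]

/-- linear images of probability measures with densities -/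
theorem dens_map (μ : Measure E) (ν : Measure F) [μ.IsAddHaarMeasure] [ν.IsAddHaarMeasure]
    (T : E ≃L[ℝ] F) {D : E → ℝ≥0∞} (hD : Measurable D) {G : F → ℝ≥0∞} (hG : Measurable G)
    (h1 : IsProbabilityMeasure (μ.withDensity D)) (h2 : IsProbabilityMeasure (ν.withDensity G))
    (a : ℝ≥0∞) (ha : ∀ x, D x = a * G (T x)) : (μ.withDensity D).map T = ν.withDensity G := by
  have hTm : Measurable T := T.continuous.measurable
  have hhaar : (μ.map T).IsAddHaarMeasure := T.isAddHaarMeasure_map μ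
  obtain ⟨c, hc⟩ : ∃ c : ℝ≥0∞, μ.map T = c • ν :=
    ⟨(Measure.addHaarScalarFactor (μ.map T) ν : NNReal), Measure.isAddLeftInvariant_eq_smul _ _⟩
  have key : ∀ H : F → ℝ≥0∞, Measurable H →
      ∫⁻ y, H y ∂((μ.withDensity D).map T) = (a * c) * ∫⁻ y, H y ∂(ν.withDensity G) := by
    intro H hH
    have e0 : ∫⁻ x, H (T x) ∂(μ.withDensity D) = ∫⁻ x, (D * fun x => H (T x)) x ∂μ :=
      lintegral_withDensity_eq_lintegral_mul _ hD (hH.comp hTm)
    rw [lintegral_map hH hTm, e0, lintegral_withDensity_eq_lintegral_mul _ hG hH]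
    have e1 : ∫⁻ x, (D * fun x => H (T x)) x ∂μ = ∫⁻ x, a * (G * H) (T x) ∂μ := by
      refine lintegral_congr fun x => ?_
      simp only [Pi.mul_apply, ha]
      ring
    have e2 : ∫⁻ x, (G * H) (T x) ∂μ = c * ∫⁻ y, (G * H) y ∂ν := by
      rw [← lintegral_map (hG.mul hH) hTm, hc, lintegral_smul_measure, smul_eq_mul]
    calc _ = ∫⁻ x, a * (G * H) (T x) ∂μ := e1
      _ = a * ∫⁻ x, (G * H) (T x) ∂μ := lintegral_const_mul _ ((hG.mul hH).comp hTm)
      _ = _ := by rw [e2, mul_assoc]
  have hp : IsProbabilityMeasure ((μ.withDensity D).map T) :=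
    Measure.isProbabilityMeasure_map hTm.aemeasurable
  have hac : a * c = 1 := by
    have h3 := key (fun _ => 1) measurable_const
    simp only [lintegral_const, measure_univ, mul_one] at h3
    exact h3.symm
  refine Measure.ext_of_lintegral _ fun H hH => ?_
  rw [key H hH, hac, one_mul]

/-- the density of a linear image -/
theorem dens_map' (μ : Measure E) (ν : Measure F) [μ.IsAddHaarMeasure] [ν.IsAddHaarMeasure]
    (T : E ≃L[ℝ] F) {D : E → ℝ≥0∞} (hD : Measurable D) : ∃ c : NNReal,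
    (μ.withDensity D).map T = ν.withDensity fun y => c * D (T.symm y) := by
  have hTm : Measurable T := T.continuous.measurable
  have hTs : Measurable T.symm := T.symm.continuous.measurable
  have hhaar : (μ.map T).IsAddHaarMeasure := T.isAddHaarMeasure_map μ
  refine ⟨Measure.addHaarScalarFactor (μ.map T) ν, ?_⟩
  obtain ⟨c, hcc⟩ : ∃ c : ℝ≥0∞, c = (Measure.addHaarScalarFactor (μ.map T) ν : NNReal) := ⟨_, rfl⟩
  have hc : μ.map T = c • ν := by
    rw [hcc]
    exact Measure.isAddLeftInvariant_eq_smul _ _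
  rw [← hcc]
  refine Measure.ext_of_lintegral _ fun H hH => ?_
  have e0 : ∫⁻ x, H (T x) ∂(μ.withDensity D) = ∫⁻ x, (D * fun x => H (T x)) x ∂μ :=
    lintegral_withDensity_eq_lintegral_mul _ hD (hH.comp hTm)
  have hDs : Measurable fun y => D (T.symm y) := hD.comp hTs
  obtain ⟨Q, hQ⟩ : ∃ Q : F → ℝ≥0∞, Q = fun y => D (T.symm y) * H y := ⟨_, rfl⟩
  have hQm : Measurable Q := by rw [hQ]; exact hDs.mul hH
  have e1 : ∫⁻ x, (D * fun x => H (T x)) x ∂μ = ∫⁻ x, Q (T x) ∂μ := by
    refine lintegral_congr fun x => ?_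
    rw [hQ]
    simp only [Pi.mul_apply, ContinuousLinearEquiv.symm_apply_apply]
  have e2 : ∫⁻ x, Q (T x) ∂μ = c * ∫⁻ y, Q y ∂ν := by
    rw [← lintegral_map hQm hTm, hc, lintegral_smul_measure, smul_eq_mul]
  have e3 : ∫⁻ y, H y ∂(ν.withDensity fun y => c * D (T.symm y)) =
      ∫⁻ y, ((fun y => c * D (T.symm y)) * H) y ∂ν :=
    lintegral_withDensity_eq_lintegral_mul _ (hDs.const_mul c) hH
  rw [lintegral_map hH hTm, e0, e1, e2, e3, ← lintegral_const_mul _ hQm]
  refine lintegral_congr fun y => ?_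
  rw [hQ]
  simp only [Pi.mul_apply, mul_assoc]

end Pool.Agent.X166.DS
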