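import Mathlib

/-!
# Homogeneous convex functions
-/

set_option autoImplicit false

namespace Pool.Agent.X166.DS

open MeasureTheory Set Filter Topology
open scoped ENNReal

/-- positive, convex, continuous functions, homogeneous of degree `p` -/
structure PN (p : ℝ) {n : ℕ} (Φ : EuclideanSpace ℝ (Fin n) → ℝ) : Prop where
  cont : Continuous Φ
  hom : ∀ (r : ℝ) (x : EuclideanSpace ℝ (Fin n)), 0 < r → Φ (r • x) = r ^ p * Φ x
  conv : ConvexOn ℝ univ Φ
  pos : ∀ x, x ≠ 0 → 0 < Φ x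

variable {p : ℝ} {n : ℕ} {Φ : EuclideanSpace ℝ (Fin n) → ℝ}

lemma PN.zero (hp : 1 ≤ p) (h : PN p Φ) : Φ 0 = 0 := by
  have h1 := h.hom 2 0 two_pos
  rw [smul_zero] at h1
  have h2 : (1:ℝ) < 2 ^ p := Real.one_lt_rpow (by norm_num) (by linarith)
  nlinarith

lemma PN.nonneg (hp : 1 ≤ p) (h : PN p Φ) (x : EuclideanSpace ℝ (Fin n)) : 0 ≤ Φ x := by
  by_cases hx : x = 0
  · rw [hx, h.zero hp]
  · exact (h.pos x hx).le

/-- lower bound -/
lemma PN.low (hp : 1 ≤ p) (h : PN p Φ) : ∃ c : ℝ, 0 < c ∧ ∀ x, c * ‖x‖ ^ p ≤ Φ x := by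
  have hp0 : p ≠ 0 := by linarith
  by_cases hs : (Metric.sphere (0 : EuclideanSpace ℝ (Fin n)) 1).Nonempty
  · obtain ⟨x0, hx0, hmin⟩ := (isCompact_sphere (0 : EuclideanSpace ℝ (Fin n)) 1).exists_isMinOn hs
      h.cont.continuousOn
    have h0 : x0 ≠ 0 := by
      rintro rfl
      simp at hx0
    refine ⟨Φ x0, h.pos _ h0, fun x => ?_⟩
    by_cases hx : x = 0
    · rw [hx, h.zero hp, norm_zero, Real.zero_rpow hp0, mul_zero]
    have hn : 0 < ‖x‖ := norm_pos_iff.2 hx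
    have h1 := h.hom ‖x‖ (‖x‖⁻¹ • x) hn
    rw [smul_smul, mul_inv_cancel₀ hn.ne', one_smul] at h1
    have h2 : ‖x‖⁻¹ • x ∈ Metric.sphere (0 : EuclideanSpace ℝ (Fin n)) 1 := by
      rw [mem_sphere_zero_iff_norm, norm_smul, norm_inv, norm_norm, inv_mul_cancel₀ hn.ne']
    rw [h1, mul_comm]
    exact mul_le_mul_of_nonneg_left (hmin h2) (by positivity)
  · refine ⟨1, one_pos, fun x => ?_⟩
    have hx : x = 0 := by
      by_contra hx
      have hn : 0 < ‖x‖ := norm_pos_iff.2 hx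
      exact hs ⟨‖x‖⁻¹ • x, by
        rw [mem_sphere_zero_iff_norm, norm_smul, norm_inv, norm_norm, inv_mul_cancel₀ hn.ne']⟩
    rw [hx, h.zero hp, norm_zero, Real.zero_rpow hp0, mul_zero]

lemma PN.bdd (hp : 1 ≤ p) (h : PN p Φ) : Bornology.IsBounded {x | Φ x ≤ 1} := by
  obtain ⟨c, hc, hl⟩ := h.low hp
  refine (Metric.isBounded_closedBall (x := (0 : EuclideanSpace ℝ (Fin n)))
    (r := (c⁻¹) ^ (1 / p))).subset fun x hx => ?_
  rw [mem_closedBall_zero_iff]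
  have h1 : ‖x‖ ^ p ≤ c⁻¹ := by
    have h2 : c * ‖x‖ ^ p ≤ 1 := (hl x).trans hx
    calc ‖x‖ ^ p = c⁻¹ * (c * ‖x‖ ^ p) := by rw [← mul_assoc, inv_mul_cancel₀ hc.ne', one_mul]
      _ ≤ c⁻¹ * 1 := mul_le_mul_of_nonneg_left h2 (by positivity)
      _ = c⁻¹ := mul_one _
  calc ‖x‖ = (‖x‖ ^ p) ^ (1 / p) := by
        rw [← Real.rpow_mul (norm_nonneg _), mul_one_div_cancel (by linarith), Real.rpow_one]
    _ ≤ _ := Real.rpow_le_rpow (by positivity) h1 (by positivity)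

lemma PN.int (hp : 1 ≤ p) (h : PN p Φ) : (interior {x | Φ x ≤ 1}).Nonempty := by
  have hsub : {x | Φ x < 1} ⊆ {x | Φ x ≤ 1} := by
    intro x hx
    have h1 : Φ x < 1 := hx
    exact h1.le
  have hop : IsOpen {x | Φ x < 1} := isOpen_lt h.cont continuous_const
  refine ⟨0, interior_maximal hsub hop ?_⟩
  show Φ 0 < 1
  rw [h.zero hp]
  exact one_pos

lemma PN.closed (h : PN p Φ) : IsClosed {x | Φ x ≤ 1} := isClosed_le h.cont continuous_const

lemma PN.convs (h : PN p Φ) : Convex ℝ {x | Φ x ≤ 1} := by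
  have := h.conv.convex_le 1
  simpa using this

/-- direct sums in arbitrary position -/
lemma PN.sum {N : ℕ} {m : Fin N → ℕ} {Ψ : ∀ i, EuclideanSpace ℝ (Fin (m i)) → ℝ}
    (hΨ : ∀ i, PN p (Ψ i)) (hp : 1 ≤ p)
    (L : EuclideanSpace ℝ (Fin n) ≃L[ℝ] (∀ i, EuclideanSpace ℝ (Fin (m i)))) :
    PN p fun x => ∑ i, Ψ i (L x i) := by
  have hc : ∀ i, Continuous fun x => L x i := fun i => (continuous_apply i).comp L.continuous
  refine ⟨?_, ?_, ?_, ?_⟩
  · exact continuous_finsetSum _ fun i _ => (hΨ i).cont.comp (hc i)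
  · intro r x hr
    rw [Finset.mul_sum]
    refine Finset.sum_congr rfl fun i _ => ?_
    rw [map_smul, Pi.smul_apply, (hΨ i).hom r _ hr]
  · refine ⟨convex_univ, fun x _ y _ a b ha hb hab => ?_⟩
    simp only [smul_eq_mul]
    rw [Finset.mul_sum, Finset.mul_sum, ← Finset.sum_add_distrib]
    refine Finset.sum_le_sum fun i _ => ?_
    have h1 := (hΨ i).conv.2 (mem_univ (L x i)) (mem_univ (L y i)) ha hb hab
    simp only [smul_eq_mul] at h1
    rw [map_add, map_smul, map_smul]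
    exact h1
  · intro x hx
    have h1 : L x ≠ 0 := fun h => hx (by
      have := congrArg L.symm h
      simpa using this)
    obtain ⟨i, hi⟩ := Function.ne_iff.1 h1
    exact Finset.sum_pos' (fun j _ => (hΨ j).nonneg hp _) ⟨i, Finset.mem_univ i, (hΨ i).pos _ hi⟩

end Pool.Agent.X166.DS
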