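import Pool.Agent.X166.DS.Sym
import Pool.Agent.X166.DS.Dens
import Pool.Agent.X166.DS.PN
import Pool.Agent.Y506.PV.Fin

/-!
# From the affine invariant Poincaré inequality to concentration; direct sums
-/

set_option autoImplicit false
set_option linter.unusedSectionVars false

namespace Pool.Agent.X166.DS

open MeasureTheory Set Filter Topology
open scoped ENNReal InnerProductSpace
open Pool.Agent.Y506.RG (EW VW Adm Star pm pm_prob pm_int pm_integrable lint_w VW_const_mul)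
open Pool.Agent.Y506.PV (CcW ind wPhi Hom)

variable {n : ℕ}

/-- the weight `exp (-Φ)` -/
noncomputable def ew (Φ : Ed n → ℝ) (x : Ed n) : ℝ := Real.exp (-Φ x)

lemma wPhi_eq {Φ : Ed n → ℝ} (h : ∀ x, 0 ≤ Φ x) :
    wPhi (fun x => ENNReal.ofReal (Φ x)) = ew Φ := by
  funext x
  unfold wPhi ew
  rw [if_neg ENNReal.ofReal_ne_top, ENNReal.toReal_ofReal (h x)]

lemma set_eq {Φ : Ed n → ℝ} : {x | ENNReal.ofReal (Φ x) ≤ 1} = {x | Φ x ≤ 1} := by
  ext x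
  show ENNReal.ofReal (Φ x) ≤ 1 ↔ Φ x ≤ 1
  rw [ENNReal.ofReal_le_one]

lemma PN.Hm {p : ℝ} (hp : 1 ≤ p) {Φ : Ed n → ℝ} (h : PN p Φ) : Hom p fun x => ENNReal.ofReal (Φ x) := by
  refine ⟨ENNReal.measurable_ofReal.comp h.cont.measurable, fun r x hr => ?_, ?_, ?_⟩
  · rw [h.hom r x hr, ENNReal.ofReal_mul (by positivity)]
  · rw [set_eq]
    exact h.bdd hp
  · rw [set_eq]
    exact Pool.Agent.Y506.PV.vol_pos (h.int hp)

lemma PN.adm {p : ℝ} (hp : 1 ≤ p) {Φ : Ed n → ℝ} (h : PN p Φ) (hn : 1 ≤ n) : Adm (ew Φ) := by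
  obtain ⟨κ', -, H⟩ := Pool.Agent.Y506.PV.radR p 1 1 hp one_pos one_pos
  have h1 := (H n _ hn (h.Hm hp)).1
  rwa [wPhi_eq (h.nonneg hp)] at h1

lemma VW_Vr {w : Ed n → ℝ} (hA : Adm w) (g : Ed n → ℝ) : VW w g = Vr (pm w) g := by
  unfold VW Vr
  rw [pm_int hA, pm_int hA]

lemma pm_mom {w : Ed n → ℝ} (hA : Adm w) : Integrable (fun x => ‖x‖ ^ 2) (pm w) := by
  refine pm_integrable hA _ (hA.of_bd _ (continuous_norm.pow 2).measurable 1 fun x => ?_)
  rw [abs_of_nonneg (sq_nonneg _)]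
  linarith

/-- concentration -/
theorem cc_of_sp {k : ℝ} (hk : 0 < k) {w : Ed n → ℝ} (hA : Adm w) (h : SPm k (pm w)) {δ : ℝ}
    (hδ : 0 < δ) : CcW (Real.sqrt (δ / k)) δ w := by
  intro d hd T s hs hvar v hv hv1 hvl
  obtain ⟨κ, hκ⟩ : ∃ κ, κ = Real.sqrt (δ / k) := ⟨_, rfl⟩
  have hκ2 : κ ^ 2 = δ / k := by rw [hκ]; exact Real.sq_sqrt (by positivity)
  rw [← hκ] at hvl
  have hprob := h.prob
  obtain ⟨T', hT'⟩ : ∃ T' : Ed n →L[ℝ] Ed d, ∀ x, T' x = T x :=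
    ⟨LinearMap.toContinuousLinearMap T, fun x => rfl⟩
  have hf : Bd v 1 (κ / Real.sqrt s) := ⟨hv, hv1, hvl⟩
  obtain ⟨h1, h2⟩ := hf.comp T'
  have h3 := h.ineq _ _ _ h1
  have hss : 0 < Real.sqrt s := Real.sqrt_pos.2 hs
  have h4 : ∀ x, Vr (pm w) (fderiv ℝ (fun x => v (T' x)) x) ≤ κ ^ 2 := by
    intro x
    rw [h2]
    obtain ⟨g, hg⟩ : ∃ g : Ed d, g = (InnerProductSpace.toDual ℝ (Ed d)).symm (fderiv ℝ v (T' x)) :=
      ⟨_, rfl⟩
    have hg1 : ∀ y, fderiv ℝ v (T' x) y = ⟪g, y⟫_ℝ := fun y => by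
      rw [hg, InnerProductSpace.toDual_symm_apply]
    have hgn : ‖g‖ ≤ κ / Real.sqrt s := by
      rw [hg, LinearIsometryEquiv.norm_map]
      exact hvl _
    have e1 : (((fderiv ℝ v (T' x)).comp T' : Ed n →L[ℝ] ℝ) : Ed n → ℝ) = fun y => ⟪g, T y⟫_ℝ := by
      funext y
      rw [ContinuousLinearMap.comp_apply, hg1, hT']
    rw [e1, ← VW_Vr hA]
    by_cases hg0 : g = 0
    · have e2 : (fun y => ⟪g, T y⟫_ℝ) = fun y : Ed n => (0:ℝ) * (0:ℝ) := by
        funext y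
        rw [hg0, inner_zero_left, zero_mul]
      rw [e2, VW_const_mul]
      simp
      positivity
    · have hn : 0 < ‖g‖ := norm_pos_iff.2 hg0
      have e2 : (fun y => ⟪g, T y⟫_ℝ) = fun y : Ed n => ‖g‖ * ⟪T y, ‖g‖⁻¹ • g⟫_ℝ := by
        funext y
        rw [real_inner_smul_right, ← mul_assoc, mul_inv_cancel₀ hn.ne', one_mul, real_inner_comm]
      rw [e2, VW_const_mul]
      have h5 := hvar (‖g‖⁻¹ • g) (by rw [norm_smul, norm_inv, norm_norm, inv_mul_cancel₀ hn.ne'])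
      calc ‖g‖ ^ 2 * VW w (fun y => ⟪T y, ‖g‖⁻¹ • g⟫_ℝ) ≤ ‖g‖ ^ 2 * s :=
            mul_le_mul_of_nonneg_left h5 (sq_nonneg _)
        _ ≤ (κ / Real.sqrt s) ^ 2 * s :=
            mul_le_mul_of_nonneg_right (pow_le_pow_left₀ (norm_nonneg _) hgn 2) hs.le
        _ = κ ^ 2 := by
            rw [div_pow, Real.sq_sqrt hs.le, div_mul_cancel₀ _ hs.ne']
  have hmom := pm_mom hA
  have iV : Integrable (fun x => Vr (pm w) (fderiv ℝ (fun x => v (T' x)) x)) (pm w) := by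
    have hc : Continuous fun x => Vr (pm w) (fderiv ℝ (fun x => v (T' x)) x) :=
      (Vr_cont hmom).comp (h1.diff.continuous_fderiv one_ne_zero)
    refine int_of_bdd (B := κ ^ 2) hc.measurable fun x => ?_
    rw [abs_of_nonneg (Vr_bd hmom _).1]
    exact h4 x
  have h6 : ∫ x, Vr (pm w) (fderiv ℝ (fun x => v (T' x)) x) ∂(pm w) ≤ κ ^ 2 := by
    have := integral_mono iV (integrable_const (κ ^ 2)) h4
    simpa using this
  have e3 : (fun x => v (T x)) = fun x => v (T' x) := funext fun x => by rw [hT']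
  rw [e3, VW_Vr hA]
  calc _ ≤ k * κ ^ 2 := h3.trans (mul_le_mul_of_nonneg_left h6 hk.le)
    _ = δ := by rw [hκ2, mul_div_cancel₀ _ hk.ne']

lemma pm_dens {w : Ed n → ℝ} (hA : Adm w) : pm w = volume.withDensity fun x =>
    (∫⁻ y, ENNReal.ofReal (w y))⁻¹ * ENNReal.ofReal (w x) := by
  unfold pm
  have hm : Measurable fun x => ENNReal.ofReal (w x) := ENNReal.measurable_ofReal.comp hA.meas
  rw [← withDensity_smul _ hm]
  rfl

/-- a product weight in arbitrary position -/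
theorem pm_pi {N : ℕ} {m : Fin N → ℕ} {w : ∀ i, Ed (m i) → ℝ} (hA : ∀ i, Adm (w i)) {d : ℕ}
    (L : Ed d ≃L[ℝ] (∀ i, Ed (m i))) {W : Ed d → ℝ} (hW : Adm W)
    (hWe : ∀ x, W x = ∏ i, w i (L x i)) : (Measure.pi fun i => pm (w i)).map L.symm = pm W := by
  have hprob : ∀ i, IsProbabilityMeasure (pm (w i)) := fun i => pm_prob (hA i)
  have hwm : ∀ i, Measurable fun x => ENNReal.ofReal (w i x) := fun i =>
    ENNReal.measurable_ofReal.comp (hA i).meas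
  have hWm : Measurable fun x => ENNReal.ofReal (W x) := ENNReal.measurable_ofReal.comp hW.meas
  obtain ⟨D, hD⟩ : ∃ D : ∀ i, Ed (m i) → ℝ≥0∞, D = fun i x =>
    (∫⁻ y, ENNReal.ofReal (w i y))⁻¹ * ENNReal.ofReal (w i x) := ⟨_, rfl⟩
  have hDm : ∀ i, Measurable (D i) := fun i => by rw [hD]; exact (hwm i).const_mul _
  have hDe : ∀ i, pm (w i) = volume.withDensity (D i) := fun i => by rw [hD]; exact pm_dens (hA i)
  have e1 : (Measure.pi fun i => pm (w i)) =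
      (volume : Measure (∀ i, Ed (m i))).withDensity fun x => ∏ i, D i (x i) := by
    have : (fun i => pm (w i)) = fun i => (volume : Measure (Ed (m i))).withDensity (D i) :=
      funext hDe
    rw [this]
    exact pi_dens m D hDm fun i => by rw [← hDe]; infer_instance
  have hPm : Measurable fun x : (∀ i, Ed (m i)) => ∏ i, D i (x i) :=
    Finset.measurable_prod _ fun i _ => (hDm i).comp (measurable_pi_apply i)
  have hZ0 : ∫⁻ x, ENNReal.ofReal (W x) ≠ 0 := by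
    rw [lint_w hW, Ne, ENNReal.ofReal_eq_zero, not_le]
    exact hW.pos
  have hZt : ∫⁻ x, ENNReal.ofReal (W x) ≠ ⊤ := by
    rw [lint_w hW]
    exact ENNReal.ofReal_ne_top
  have hpi : IsProbabilityMeasure ((volume : Measure (∀ i, Ed (m i))).withDensity
      fun x => ∏ i, D i (x i)) := by
    rw [← e1]
    infer_instance
  have hpW : IsProbabilityMeasure (volume.withDensity fun x =>
      (∫⁻ y, ENNReal.ofReal (W y))⁻¹ * ENNReal.ofReal (W x)) := by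
    rw [← pm_dens hW]
    exact pm_prob hW
  rw [e1, pm_dens hW]
  refine dens_map _ _ L.symm hPm (hWm.const_mul _) hpi hpW
    ((∏ i, (∫⁻ y, ENNReal.ofReal (w i y))⁻¹) * ∫⁻ x, ENNReal.ofReal (W x)) fun y => ?_
  have e2 : ENNReal.ofReal (W (L.symm y)) = ∏ i, ENNReal.ofReal (w i (y i)) := by
    rw [hWe, ENNReal.ofReal_prod_of_nonneg fun i _ => (hA i).nonneg _]
    simp only [ContinuousLinearEquiv.apply_symm_apply]
  rw [e2, hD]
  simp only
  rw [Finset.prod_mul_distrib, mul_assoc, ← mul_assoc (∫⁻ x, ENNReal.ofReal (W x)),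
    ENNReal.mul_inv_cancel hZ0 hZt, one_mul]

/-- **direct sums** -/
theorem sp_sum {p k : ℝ} (hp : 1 ≤ p) {N : ℕ} {m : Fin N → ℕ} (hm : ∀ i, 1 ≤ m i)
    {Ψ : ∀ i, Ed (m i) → ℝ} (hΨ : ∀ i, PN p (Ψ i)) (hs : ∀ i, SPm k (pm (ew (Ψ i)))) {d : ℕ}
    (hd : 1 ≤ d) (L : Ed d ≃L[ℝ] (∀ i, Ed (m i))) :
    SPm k (pm (ew fun x => ∑ i, Ψ i (L x i))) := by
  have hA : ∀ i, Adm (ew (Ψ i)) := fun i => (hΨ i).adm hp (hm i)
  have hW : Adm (ew fun x => ∑ i, Ψ i (L x i)) := (PN.sum hΨ hp L).adm hp hd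
  rw [← pm_pi hA L hW fun x => by
    unfold ew
    rw [← Finset.sum_neg_distrib, Real.exp_sum]]
  exact (SPm.pi N m _ hs).map (L.symm : (∀ i, Ed (m i)) →L[ℝ] Ed d)

/-- concentration for the unit balls -/
theorem cc_ball {p k : ℝ} (hp : 1 ≤ p) (hk : 0 < k) (δ : ℝ) (hδ : 0 < δ) : ∃ κ : ℝ, 0 < κ ∧
    ∀ (n : ℕ) (Φ : Ed n → ℝ), 1 ≤ n → PN p Φ → SPm k (pm (ew Φ)) → CcW κ δ (ind {x | Φ x ≤ 1}) := by
  have hδ6 : 0 < δ / 6 := by positivity
  obtain ⟨κ', hκ', H⟩ := Pool.Agent.Y506.PV.radR p δ (Real.sqrt (δ / 6 / k)) hp hδ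
    (Real.sqrt_pos.2 (by positivity))
  refine ⟨κ', hκ', fun n Φ hn hΦ hsp => ?_⟩
  have h1 := (H n _ hn (hΦ.Hm hp)).2.2
  rw [wPhi_eq (hΦ.nonneg hp), set_eq] at h1
  exact h1 (cc_of_sp hk (hΦ.adm hp hn) hsp hδ6)

/-- **images of convex bodies with concentration** -/
theorem star_image (r : ℕ) (P : ∀ m : ℕ, Set (Ed m) → Prop)
    (hP : ∀ m K, P m K → IsCompact K ∧ Convex ℝ K ∧ (interior K).Nonempty)
    (hcc : ∀ δ : ℝ, 0 < δ → ∃ κ : ℝ, 0 < κ ∧ ∀ m K, 1 ≤ m → P m K → CcW κ δ (ind K)) :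
    ∃ c : ℝ, 0 < c ∧ ∀ (n m : ℕ) (K : Set (Ed m)) (A : Ed m →ₗ[ℝ] Ed n),
    1 ≤ n → m ≤ n + r → P m K → Function.Surjective A → IsCompact (A '' K) ∧
    Convex ℝ (A '' K) ∧ (interior (A '' K)).Nonempty ∧ Star c (ind (A '' K)) := by
  obtain ⟨c, hc, H⟩ := Pool.Agent.Y506.RG.max_const (fun d c => ∀ (n : ℕ) (K : Set (Ed (n + d)))
      (A : Ed (n + d) →ₗ[ℝ] Ed n), 1 ≤ n → P (n + d) K → Function.Surjective A →
      Star c (ind (A '' K)))
    (fun d => by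
      obtain ⟨δ0, c0, hδ0, hc0, H0⟩ := Pool.Agent.Y506.PV.cc_img Pool.Agent.Y941.PV.prj
        Pool.Agent.Y506.PV.denR Pool.Agent.Y388.PV.cmp Pool.Agent.Y388.PV.fac d (1 / 25) (by norm_num)
      obtain ⟨κ, hκ, H1⟩ := hcc δ0 hδ0
      obtain ⟨c, hc, H2⟩ := Pool.Agent.Y506.PV.stb Pool.Agent.Y211.PV.iso (c0 * κ) (by positivity)
      refine ⟨c, hc, fun n K A hn hK hA => ?_⟩
      obtain ⟨hcp, hcv, hint⟩ := hP _ K hK
      have hAc : Continuous A := A.continuous_of_finiteDimensional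
      exact H2 n (A '' K) (hcp.image hAc) (hcv.linear_image A)
        (Pool.Agent.Y506.PV.int_image hint A hA)
        (H0 n κ K A hκ hcp hcv hint hA (H1 (n + d) K (by omega) hK)))
    (fun d c c' hcc h n K A hn hK hA => Star.mono hcc
      (fun x => indicator_nonneg (fun _ _ => zero_le_one) x) (h n K A hn hK hA)) r
  refine ⟨c, hc, fun n m K A hn hm hK hA => ?_⟩
  have hnm : n ≤ m := by
    have := LinearMap.finrank_le_finrank_of_surjective (f := A) hA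
    simpa using this
  obtain ⟨d, rfl⟩ : ∃ d, m = n + d := ⟨m - n, by omega⟩
  obtain ⟨hcp, hcv, hint⟩ := hP _ K hK
  have hAc : Continuous A := A.continuous_of_finiteDimensional
  exact ⟨hcp.image hAc, hcv.linear_image A, Pool.Agent.Y506.PV.int_image hint A hA,
    H d (by omega) n K A hn hK hA⟩

end Pool.Agent.X166.DS
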