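import Pool.Agent.X166.DS.Fam

/-!
# The Poincaré inequality for all `C¹` functions in `L²`
-/

set_option autoImplicit false
set_option linter.unusedSectionVars false

namespace Pool.Agent.X166.DS

open MeasureTheory Set Filter Topology
open scoped ENNReal InnerProductSpace

variable {n : ℕ}

/-- a bound for the variances of all functionals -/
lemma Vr_le {μ : Measure (Ed n)} {s : ℝ} (hs : 0 ≤ s)
    (hvar : ∀ θ : Ed n, ‖θ‖ = 1 → Vr μ (fun x => ⟪x, θ⟫_ℝ) ≤ s) (l : Ed n →L[ℝ] ℝ) :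
    Vr μ l ≤ s * ‖l‖ ^ 2 := by
  obtain ⟨g, hg⟩ : ∃ g : Ed n, g = (InnerProductSpace.toDual ℝ (Ed n)).symm l := ⟨_, rfl⟩
  have hg1 : ∀ y, l y = ⟪g, y⟫_ℝ := fun y => by rw [hg, InnerProductSpace.toDual_symm_apply]
  have hgn : ‖g‖ = ‖l‖ := by rw [hg, LinearIsometryEquiv.norm_map]
  by_cases hg0 : g = 0
  · have e : (l : Ed n → ℝ) = fun _ => 0 := funext fun y => by rw [hg1, hg0, inner_zero_left]
    rw [e]
    unfold Vr
    simp
    positivity
  · have hn : 0 < ‖g‖ := norm_pos_iff.2 hg0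
    have h1 := hvar (‖g‖⁻¹ • g) (by rw [norm_smul, norm_inv, norm_norm, inv_mul_cancel₀ hn.ne'])
    have e : (l : Ed n → ℝ) = fun y => ‖g‖ * ⟪y, ‖g‖⁻¹ • g⟫_ℝ := funext fun y => by
      rw [hg1, real_inner_smul_right, ← mul_assoc, mul_inv_cancel₀ hn.ne', one_mul, real_inner_comm]
    have e2 : Vr μ l = ‖g‖ ^ 2 * Vr μ fun y => ⟪y, ‖g‖⁻¹ • g⟫_ℝ := by
      rw [e]
      unfold Vr
      simp only [mul_pow]
      rw [integral_const_mul, integral_const_mul]
      ring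
    rw [e2, ← hgn, mul_comm s]
    exact mul_le_mul_of_nonneg_left h1 (sq_nonneg _)

/-- bounded functions with a bounded gradient -/
lemma SPm.bd {k : ℝ} (hk : 0 ≤ k) {μ : Measure (Ed n)} (h : SPm k μ) {s : ℝ} (hs : 0 ≤ s)
    (hvar : ∀ θ : Ed n, ‖θ‖ = 1 → Vr μ (fun x => ⟪x, θ⟫_ℝ) ≤ s) {f : Ed n → ℝ} {B L : ℝ}
    (hf : Bd f B L) : Vr μ f ≤ k * s * ∫ x, ‖fderiv ℝ f x‖ ^ 2 ∂μ := by
  have := h.prob
  refine (h.ineq f B L hf).trans ?_
  rw [mul_assoc]
  refine mul_le_mul_of_nonneg_left ?_ hk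
  have hgc : Continuous fun x => ‖fderiv ℝ f x‖ ^ 2 :=
    ((hf.diff.continuous_fderiv one_ne_zero).norm).pow 2
  have ig : Integrable (fun x => ‖fderiv ℝ f x‖ ^ 2) μ :=
    int_of_bdd (B := L ^ 2) hgc.measurable fun x => by
      rw [abs_of_nonneg (sq_nonneg _)]
      exact pow_le_pow_left₀ (norm_nonneg _) (hf.grad x) 2
  have iV : Integrable (fun x => Vr μ (fderiv ℝ f x)) μ := by
    have hc : Continuous fun x => Vr μ (fderiv ℝ f x) :=
      (Vr_cont h.mom).comp (hf.diff.continuous_fderiv one_ne_zero)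
    refine int_of_bdd (B := s * L ^ 2) hc.measurable fun x => ?_
    rw [abs_of_nonneg (Vr_bd h.mom _).1]
    exact (Vr_le hs hvar _).trans (mul_le_mul_of_nonneg_left
      (pow_le_pow_left₀ (norm_nonneg _) (hf.grad x) 2) hs)
  rw [← integral_const_mul]
  exact integral_mono iV (ig.const_mul _) fun x => Vr_le hs hvar _

lemma Vr_tendsto {μ : Measure (Ed n)} [IsFiniteMeasure μ] {g : ℕ → Ed n → ℝ} {f G : Ed n → ℝ}
    (hm : ∀ j, Measurable (g j)) (hG : MemLp G 2 μ) (hb : ∀ j x, |g j x| ≤ |G x|)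
    (hl : ∀ x, Tendsto (fun j => g j x) atTop (𝓝 (f x))) :
    Tendsto (fun j => Vr μ (g j)) atTop (𝓝 (Vr μ f)) := by
  unfold Vr
  refine Tendsto.sub ?_ (Tendsto.pow ?_ 2)
  · refine tendsto_integral_of_dominated_convergence (fun x => G x ^ 2)
      (fun j => ((hm j).pow_const 2).aestronglyMeasurable) hG.integrable_sq (fun j =>
      Eventually.of_forall fun x => ?_) (Eventually.of_forall fun x => (hl x).pow 2)
    rw [Real.norm_eq_abs, abs_of_nonneg (sq_nonneg _)]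
    exact sq_le_sq.2 (hb j x)
  · refine tendsto_integral_of_dominated_convergence (fun x => |G x|)
      (fun j => (hm j).aestronglyMeasurable) (hG.integrable one_le_two).abs (fun j =>
      Eventually.of_forall fun x => ?_) (Eventually.of_forall hl)
    rw [Real.norm_eq_abs]
    exact hb j x

lemma abs_arctan_le (t : ℝ) : |Real.arctan t| ≤ |t| := by
  have h : ∀ t : ℝ, 0 ≤ t → Real.arctan t ≤ t := fun t ht => by
    rcases eq_or_lt_of_le ht with h0 | h0
    · rw [← h0, Real.arctan_zero]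
    · have h1 := Real.lt_tan (Real.arctan_pos.2 h0) (Real.arctan_lt_pi_div_two t)
      rw [Real.tan_arctan] at h1
      exact h1.le
  rcases le_total 0 t with ht | ht
  · rw [abs_of_nonneg ht, abs_of_nonneg (Real.arctan_nonneg.2 ht)]
    exact h t ht
  · have h1 := h (-t) (by linarith)
    rw [Real.arctan_neg] at h1
    rw [abs_of_nonpos ht, abs_of_nonpos (by rw [← Real.arctan_zero]; exact Real.arctan_mono ht)]
    exact h1

lemma arctan_lim (t : ℝ) :
    Tendsto (fun i : ℕ => ((i:ℝ) + 1) * Real.arctan (t / ((i:ℝ) + 1))) atTop (𝓝 t) := by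
  have h1 : HasDerivAt (fun u : ℝ => Real.arctan (t * u)) t 0 := by
    have h2 : HasDerivAt (fun u : ℝ => t * u) t 0 := by
      simpa using (hasDerivAt_id (0:ℝ)).const_mul t
    have h3 := h2.arctan
    simpa using h3
  rw [hasDerivAt_iff_tendsto_slope_zero] at h1
  have h2 : Tendsto (fun i : ℕ => ((i:ℝ) + 1)⁻¹) atTop (𝓝[≠] 0) := by
    refine tendsto_nhdsWithin_iff.2 ⟨?_, Eventually.of_forall fun i => ?_⟩
    · simpa using tendsto_one_div_add_atTop_nhds_zero_nat (𝕜 := ℝ)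
    · have : (0:ℝ) < ((i:ℝ) + 1)⁻¹ := by positivity
      exact this.ne'
  refine (h1.comp h2).congr fun i => ?_
  simp only [Function.comp_apply, zero_add, mul_zero, Real.arctan_zero, sub_zero, smul_eq_mul, inv_inv]
  rw [div_eq_mul_inv]

/-- **the Poincaré inequality for all functions** -/
theorem SPm.real {k : ℝ} (hk : 0 < k) {μ : Measure (Ed n)} (h : SPm k μ) {s : ℝ} (hs : 0 < s)
    (hvar : ∀ θ : Ed n, ‖θ‖ = 1 → Vr μ (fun x => ⟪x, θ⟫_ℝ) ≤ s) {f : Ed n → ℝ}
    (hf : ContDiff ℝ 1 f) (hL : MemLp f 2 μ)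
    (hD : Integrable (fun x => ‖fderiv ℝ f x‖ ^ 2) μ) :
    Vr μ f ≤ k * s * ∫ x, ‖fderiv ℝ f x‖ ^ 2 ∂μ := by
  have hprob := h.prob
  obtain ⟨χ, hχ⟩ : ∃ χ : ContDiffBump (0 : Ed n), χ = ⟨1, 2, one_pos, one_lt_two⟩ := ⟨_, rfl⟩
  obtain ⟨X, hX⟩ : ∃ X : Ed n → ℝ, X = χ := ⟨_, rfl⟩
  have hXc : ContDiff ℝ 1 X := by rw [hX]; exact χ.contDiff
  have hXs : HasCompactSupport X := by rw [hX]; exact χ.hasCompactSupport
  have hX0 : ∀ x, |X x| ≤ 1 := fun x => by
    rw [hX, abs_of_nonneg χ.nonneg]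
    exact χ.le_one
  have hX1 : X 0 = 1 := by
    rw [hX]
    exact χ.one_of_mem_closedBall (Metric.mem_closedBall_self χ.rIn_pos.le)
  obtain ⟨c, hc⟩ : ∃ c : ℝ, ∀ x, ‖fderiv ℝ X x‖ ≤ c :=
    (hXc.continuous_fderiv one_ne_zero).bounded_above_of_compact_support (hXs.fderiv ℝ)
  have hc0 : 0 ≤ c := (norm_nonneg _).trans (hc 0)
  have hfc := hf.continuous
  have hgc : Continuous fun x => ‖fderiv ℝ f x‖ := (hf.continuous_fderiv one_ne_zero).norm
  have hE : Integrable (fun x => ‖fderiv ℝ f x‖) μ := by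
    refine Integrable.mono' ((integrable_const (1:ℝ)).add hD) hgc.measurable.aestronglyMeasurable
      (Eventually.of_forall fun x => ?_)
    rw [Real.norm_eq_abs, abs_of_nonneg (norm_nonneg _), Pi.add_apply]
    nlinarith [sq_nonneg (‖fderiv ℝ f x‖ - 1), norm_nonneg (fderiv ℝ f x)]
  -- the truncation of the values
  have key : ∀ R : ℝ, 0 < R → Vr μ (fun x => R * Real.arctan (f x / R)) ≤
      k * s * ∫ x, ‖fderiv ℝ f x‖ ^ 2 ∂μ := by
    intro R hR
    obtain ⟨b, hb⟩ : ∃ b : Ed n → ℝ, b = fun x => R * Real.arctan (f x / R) := ⟨_, rfl⟩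
    have hb1 : ∀ x, HasFDerivAt b ((1 / (1 + (f x / R) ^ 2)) • fderiv ℝ f x) x := fun x => by
      have h1 : HasFDerivAt f (fderiv ℝ f x) x := (hf.differentiable one_ne_zero _).hasFDerivAt
      have h2 := (h1.mul_const (R⁻¹)).arctan.const_mul R
      rw [hb]
      have e1 : (fun x => R * Real.arctan (f x / R)) = fun x => R * Real.arctan (f x * R⁻¹) := by
        funext x
        rw [div_eq_mul_inv]
      rw [e1]
      refine h2.congr_fderiv ?_
      ext v
      simp only [smul_apply, smul_eq_mul, div_eq_mul_inv]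
      field_simp
    have hbC : ContDiff ℝ 1 b := by
      rw [hb]
      exact contDiff_const.mul (Real.contDiff_arctan.comp (hf.div_const R))
    have hbb : ∀ x, |b x| ≤ 2 * R := fun x => by
      rw [hb]
      simp only
      rw [abs_mul, abs_of_pos hR, mul_comm]
      refine mul_le_mul_of_nonneg_right ?_ hR.le
      rw [abs_le]
      have h1 := Real.arctan_lt_pi_div_two (f x / R)
      have h2 := Real.neg_pi_div_two_lt_arctan (f x / R)
      have h3 := Real.pi_lt_four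
      constructor <;> linarith
    have hbg : ∀ x, ‖(1 / (1 + (f x / R) ^ 2)) • fderiv ℝ f x‖ ≤ ‖fderiv ℝ f x‖ := fun x => by
      rw [norm_smul]
      have h1 : ‖1 / (1 + (f x / R) ^ 2)‖ ≤ 1 := by
        rw [Real.norm_eq_abs, abs_of_nonneg (by positivity), div_le_one (by positivity)]
        nlinarith [sq_nonneg (f x / R)]
      calc _ ≤ 1 * ‖fderiv ℝ f x‖ := mul_le_mul_of_nonneg_right h1 (norm_nonneg _)
        _ = _ := one_mul _
    obtain ⟨g, hg⟩ : ∃ g : ℕ → Ed n → ℝ, g = fun (j : ℕ) x => X (((j:ℝ) + 1)⁻¹ • x) * b x := ⟨_, rfl⟩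
    obtain ⟨α, hα⟩ : ∃ α : ℕ → ℝ, α = fun (j : ℕ) => 2 * R * c * ((j:ℝ) + 1)⁻¹ := ⟨_, rfl⟩
    have hα0 : ∀ j, 0 ≤ α j := fun j => by rw [hα]; positivity
    have hgC : ∀ j, ContDiff ℝ 1 (g j) := fun j => by
      rw [hg]
      exact (hXc.comp (contDiff_const_smul _)).mul hbC
    have hgd : ∀ j x, ‖fderiv ℝ (g j) x‖ ≤ ‖fderiv ℝ f x‖ + α j := fun j x => by
      have hj : (0:ℝ) < ((j:ℝ) + 1)⁻¹ := by positivity
      have h1 : HasFDerivAt X (fderiv ℝ X (((j:ℝ) + 1)⁻¹ • x)) (((j:ℝ) + 1)⁻¹ • x) :=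
        (hXc.differentiable one_ne_zero _).hasFDerivAt
      have h2 : HasFDerivAt (fun x : Ed n => ((j:ℝ) + 1)⁻¹ • x)
          (((j:ℝ) + 1)⁻¹ • ContinuousLinearMap.id ℝ (Ed n)) x :=
        (((j:ℝ) + 1)⁻¹ • ContinuousLinearMap.id ℝ (Ed n)).hasFDerivAt
      have h3 : HasFDerivAt (fun x => X (((j:ℝ) + 1)⁻¹ • x)) _ x := HasFDerivAt.comp x h1 h2
      have h4 := (h3.mul (hb1 x)).fderiv
      have e1 : g j = (fun x => X (((j:ℝ) + 1)⁻¹ • x)) * b := by rw [hg]; rfl
      rw [e1, h4]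
      refine (norm_add_le _ _).trans (add_le_add ?_ ?_)
      · rw [norm_smul, Real.norm_eq_abs]
        calc _ ≤ 1 * ‖fderiv ℝ f x‖ := mul_le_mul (hX0 _) (hbg x) (norm_nonneg _) zero_le_one
          _ = _ := one_mul _
      · rw [norm_smul, Real.norm_eq_abs]
        have h5 : ‖(fderiv ℝ X (((j:ℝ) + 1)⁻¹ • x)).comp
            (((j:ℝ) + 1)⁻¹ • ContinuousLinearMap.id ℝ (Ed n))‖ ≤ c * ((j:ℝ) + 1)⁻¹ := by
          rw [ContinuousLinearMap.comp_smul, ContinuousLinearMap.comp_id, norm_smul,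
            Real.norm_eq_abs, abs_of_pos hj, mul_comm]
          exact mul_le_mul_of_nonneg_right (hc _) hj.le
        rw [hα]
        calc _ ≤ (2 * R) * (c * ((j:ℝ) + 1)⁻¹) :=
              mul_le_mul (hbb x) h5 (norm_nonneg _) (by positivity)
          _ = _ := by ring
    have hgb : ∀ j x, |g j x| ≤ 2 * R := fun j x => by
      rw [hg]
      simp only
      rw [abs_mul]
      calc _ ≤ 1 * (2 * R) := mul_le_mul (hX0 _) (hbb x) (abs_nonneg _) zero_le_one
        _ = _ := one_mul _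
    have hgs : ∀ j, HasCompactSupport (g j) := fun j => by
      have hj : ((j:ℝ) + 1)⁻¹ ≠ 0 := by positivity
      have h1 : HasCompactSupport fun x => X (((j:ℝ) + 1)⁻¹ • x) := hXs.comp_smul hj
      rw [hg]
      exact h1.mul_right
    have hbd : ∀ j, ∃ L, Bd (g j) (2 * R) L := fun j => by
      obtain ⟨L, hL'⟩ := ((hgC j).continuous_fderiv one_ne_zero).bounded_above_of_compact_support
        ((hgs j).fderiv ℝ)
      exact ⟨L, hgC j, hgb j, hL'⟩
    have hin : ∀ j, Vr μ (g j) ≤ k * s * (∫ x, ‖fderiv ℝ f x‖ ^ 2 ∂μ +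
        2 * α j * ∫ x, ‖fderiv ℝ f x‖ ∂μ + α j ^ 2) := fun j => by
      obtain ⟨L, hL'⟩ := hbd j
      refine (h.bd hk.le hs.le hvar hL').trans (mul_le_mul_of_nonneg_left ?_ (by positivity))
      have hgj : Continuous fun x => ‖fderiv ℝ (g j) x‖ ^ 2 :=
        (((hgC j).continuous_fderiv one_ne_zero).norm).pow 2
      have e1 : ∫ x, ‖fderiv ℝ f x‖ ^ 2 ∂μ + 2 * α j * ∫ x, ‖fderiv ℝ f x‖ ∂μ + α j ^ 2 =
          ∫ x, ((‖fderiv ℝ f x‖ ^ 2 + 2 * α j * ‖fderiv ℝ f x‖) + α j ^ 2) ∂μ := by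
        have i1 : Integrable (fun x => ‖fderiv ℝ f x‖ ^ 2 + 2 * α j * ‖fderiv ℝ f x‖) μ :=
          hD.add (hE.const_mul _)
        rw [integral_add i1 (integrable_const _),
          integral_add hD (hE.const_mul _), integral_const_mul, integral_const]
        simp
      rw [e1]
      refine integral_mono (int_of_bdd (B := L ^ 2) hgj.measurable fun x => ?_)
        ((hD.add (hE.const_mul _)).add (integrable_const _)) fun x => ?_
      · rw [abs_of_nonneg (sq_nonneg _)]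
        exact pow_le_pow_left₀ (norm_nonneg _) (hL'.grad x) 2
      · simp only
        calc ‖fderiv ℝ (g j) x‖ ^ 2 ≤ (‖fderiv ℝ f x‖ + α j) ^ 2 :=
              pow_le_pow_left₀ (norm_nonneg _) (hgd j x) 2
          _ = _ := by ring
    have hαl : Tendsto α atTop (𝓝 0) := by
      rw [hα]
      have h1 : Tendsto (fun j : ℕ => ((j:ℝ) + 1)⁻¹) atTop (𝓝 0) := by
        simpa using tendsto_one_div_add_atTop_nhds_zero_nat (𝕜 := ℝ)
      simpa using h1.const_mul (2 * R * c)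
    have hl1 : Tendsto (fun j => Vr μ (g j)) atTop (𝓝 (Vr μ b)) := by
      refine Vr_tendsto (G := fun _ => 2 * R) (fun j => (hgC j).continuous.measurable)
        (memLp_const _) (fun j x => by rw [abs_of_pos (by positivity : 0 < 2 * R)]; exact hgb j x)
        fun x => ?_
      have h1 : Tendsto (fun j : ℕ => X (((j:ℝ) + 1)⁻¹ • x)) atTop (𝓝 (X ((0:ℝ) • x))) := by
        have h2 : Tendsto (fun j : ℕ => ((j:ℝ) + 1)⁻¹) atTop (𝓝 0) := by
          simpa using tendsto_one_div_add_atTop_nhds_zero_nat (𝕜 := ℝ)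
        exact (hXc.continuous.tendsto _).comp (h2.smul_const x)
      rw [zero_smul, hX1] at h1
      have h3 := h1.mul_const (b x)
      rw [one_mul] at h3
      rw [hg]
      exact h3
    have hl2 : Tendsto (fun j => k * s * (∫ x, ‖fderiv ℝ f x‖ ^ 2 ∂μ +
        2 * α j * ∫ x, ‖fderiv ℝ f x‖ ∂μ + α j ^ 2)) atTop
        (𝓝 (k * s * ∫ x, ‖fderiv ℝ f x‖ ^ 2 ∂μ)) := by
      have h1 := (((hαl.const_mul 2).mul_const (∫ x, ‖fderiv ℝ f x‖ ∂μ)).const_add
        (∫ x, ‖fderiv ℝ f x‖ ^ 2 ∂μ)).add (hαl.pow 2)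
      have h2 := h1.const_mul (k * s)
      simpa using h2
    have := le_of_tendsto_of_tendsto' hl1 hl2 hin
    rwa [hb] at this
  have hlim : Tendsto (fun i : ℕ => Vr μ fun x => ((i:ℝ) + 1) * Real.arctan (f x / ((i:ℝ) + 1)))
      atTop (𝓝 (Vr μ f)) := by
    refine Vr_tendsto (G := f) (fun i => ?_) hL (fun i x => ?_) fun x => arctan_lim (f x)
    · exact (Real.continuous_arctan.comp (hfc.div_const _)).measurable.const_mul _
    · have hi : (0:ℝ) < (i:ℝ) + 1 := by positivity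
      rw [abs_mul, abs_of_pos hi]
      calc ((i:ℝ) + 1) * |Real.arctan (f x / ((i:ℝ) + 1))| ≤ ((i:ℝ) + 1) * |f x / ((i:ℝ) + 1)| :=
            mul_le_mul_of_nonneg_left (abs_arctan_le _) hi.le
        _ = |f x| := by rw [abs_div, abs_of_pos hi, mul_div_cancel₀ _ hi.ne']
  exact le_of_tendsto' hlim fun i => key _ (by positivity)

/-- the form with lower integrals -/
theorem SPm.full {k : ℝ} (hk : 0 < k) {μ : Measure (Ed n)} (h : SPm k μ) {s : ℝ} (hs : 0 < s)
    (hvar : ∀ θ : Ed n, ‖θ‖ = 1 → ProbabilityTheory.variance (fun x => ⟪x, θ⟫_ℝ) μ ≤ s)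
    {f : Ed n → ℝ} (hf : ContDiff ℝ 1 f) (hL : MemLp f 2 μ) :
    ENNReal.ofReal (ProbabilityTheory.variance f μ) ≤
      ENNReal.ofReal (k * s) * ∫⁻ x, ENNReal.ofReal (‖fderiv ℝ f x‖ ^ 2) ∂μ := by
  have hprob := h.prob
  have hgc : Continuous fun x => ‖fderiv ℝ f x‖ ^ 2 := ((hf.continuous_fderiv one_ne_zero).norm).pow 2
  have hv : ∀ g : Ed n → ℝ, MemLp g 2 μ → ProbabilityTheory.variance g μ = Vr μ g := fun g hg => by
    rw [ProbabilityTheory.variance_eq_sub hg]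
    rfl
  by_cases hD : Integrable (fun x => ‖fderiv ℝ f x‖ ^ 2) μ
  · rw [hv f hL, ← ofReal_integral_eq_lintegral_ofReal hD (Eventually.of_forall fun x => sq_nonneg _),
      ← ENNReal.ofReal_mul (by positivity)]
    refine ENNReal.ofReal_le_ofReal (h.real hk hs (fun θ hθ => ?_) hf hL hD)
    have h1 := hvar θ hθ
    rw [hv _ ?_] at h1
    · exact h1
    · have e : (fun x : Ed n => ⟪x, θ⟫_ℝ) = fun x => (innerSL ℝ θ) x := by
        funext x
        rw [innerSL_apply_apply, real_inner_comm]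
      rw [e]
      exact (memLp_two_iff_integrable_sq
        (innerSL ℝ θ).continuous.measurable.aestronglyMeasurable).2 (lin2 h.mom _)
  · have h1 : ∫⁻ x, ENNReal.ofReal (‖fderiv ℝ f x‖ ^ 2) ∂μ = ⊤ := by
      by_contra hne
      refine hD ⟨hgc.measurable.aestronglyMeasurable, ?_⟩
      rw [hasFiniteIntegral_iff_ofReal (Eventually.of_forall fun x => sq_nonneg _)]
      exact lt_top_iff_ne_top.2 hne
    rw [h1, ENNReal.mul_top (ENNReal.ofReal_pos.2 (by positivity)).ne']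
    exact le_top

end Pool.Agent.X166.DS
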