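import Pool.Agent.X166.DS.Pi

/-!
# Products of finitely many measures, densities
-/

set_option autoImplicit false
set_option linter.unusedSectionVars false

namespace Pool.Agent.X166.DS

open MeasureTheory Set Filter Topology
open scoped ENNReal

/-- Euclidean space -/
abbrev Ed (n : ℕ) : Type := EuclideanSpace ℝ (Fin n)

/-- adding a component in front -/
noncomputable def cns {N : ℕ} (m : Fin (N + 1) → ℕ) :
    (Ed (m 0) × (∀ j : Fin N, Ed (m j.succ))) →L[ℝ] (∀ i, Ed (m i)) :=
  ContinuousLinearMap.pi fun i => Fin.cases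
    (motive := fun i => (Ed (m 0) × (∀ j : Fin N, Ed (m j.succ))) →L[ℝ] Ed (m i))
    (ContinuousLinearMap.fst ℝ _ _)
    (fun j => (ContinuousLinearMap.proj (R := ℝ) (φ := fun j : Fin N => Ed (m j.succ)) j).comp
      (ContinuousLinearMap.snd ℝ _ _)) i

lemma cns_zero {N : ℕ} (m : Fin (N + 1) → ℕ) (p : Ed (m 0) × (∀ j : Fin N, Ed (m j.succ))) :
    cns m p 0 = p.1 := rfl

lemma cns_succ {N : ℕ} (m : Fin (N + 1) → ℕ) (p : Ed (m 0) × (∀ j : Fin N, Ed (m j.succ)))
    (j : Fin N) : cns m p j.succ = p.2 j := rfl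

lemma pi_cns {N : ℕ} (m : Fin (N + 1) → ℕ) (μ : ∀ i, Measure (Ed (m i))) [∀ i, SigmaFinite (μ i)] :
    Measure.pi μ = ((μ 0).prod (Measure.pi fun j : Fin N => μ j.succ)).map (cns m) := by
  refine Measure.pi_eq fun s hs => ?_
  have hpre : cns m ⁻¹' (univ.pi s) = s 0 ×ˢ (univ.pi fun j : Fin N => s j.succ) := by
    ext p
    simp only [mem_preimage, Set.mem_pi, mem_univ, true_imp_iff, mem_prod]
    constructor
    · intro hh
      exact ⟨hh 0, fun j => hh j.succ⟩
    · rintro ⟨h4, h5⟩ i
      refine Fin.cases ?_ ?_ i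
      · exact h4
      · exact h5
  rw [Measure.map_apply (cns m).continuous.measurable (MeasurableSet.univ_pi hs), hpre,
    Measure.prod_prod, Measure.pi_pi, Fin.prod_univ_succ]

/-- products of `N` measures -/
theorem SPm.pi {k : ℝ} : ∀ (N : ℕ) (m : Fin N → ℕ) (μ : ∀ i, Measure (Ed (m i))),
    (∀ i, SPm k (μ i)) → SPm k (Measure.pi μ) := by
  intro N
  induction N with
  | zero =>
    intro m μ _
    have hp : ∀ i, IsProbabilityMeasure (μ i) := fun i => i.elim0
    have hsub : Subsingleton (∀ i : Fin 0, Ed (m i)) := inferInstance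
    refine ⟨inferInstance, ?_, fun f B L hf => ?_⟩
    · have : (fun x : ∀ i : Fin 0, Ed (m i) => ‖x‖ ^ 2) = fun _ => ‖(0 : ∀ i : Fin 0, Ed (m i))‖ ^ 2 := by
        funext x
        rw [Subsingleton.elim x 0]
      rw [this]
      exact integrable_const _
    · have h1 : ∀ g : (∀ i : Fin 0, Ed (m i)) → ℝ, Vr (Measure.pi μ) g = 0 := by
        intro g
        have hg : g = fun _ => g 0 := by
          funext x
          rw [Subsingleton.elim x 0]
        unfold Vr
        rw [hg]
        simp
      simp only [h1]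
      simp
  | succ N ih =>
    intro m μ h
    have hp : ∀ i, IsProbabilityMeasure (μ i) := fun i => (h i).prob
    have h1 := ih (fun j => m j.succ) (fun j => μ j.succ) fun j => h j.succ
    have h2 := ((h 0).prod h1).map (cns m)
    rw [pi_cns]
    exact h2

lemma lint_pi : ∀ (N : ℕ) (m : Fin N → ℕ) (f : ∀ i, Ed (m i) → ℝ≥0∞), (∀ i, Measurable (f i)) →
    ∫⁻ x : (∀ i, Ed (m i)), ∏ i, f i (x i) = ∏ i, ∫⁻ y, f i y := by
  intro N
  induction N with
  | zero =>
    intro m f _
    simp only [Finset.univ_eq_empty, Finset.prod_empty, lintegral_const, one_mul]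
    rw [volume_pi, Measure.pi_univ]
    simp
  | succ N ih =>
    intro m f hf
    have hm : Measurable fun x : (∀ i, Ed (m i)) => ∏ i, f i (x i) :=
      Finset.measurable_prod _ fun i _ => (hf i).comp (measurable_pi_apply i)
    rw [volume_pi, pi_cns, lintegral_map hm (cns m).continuous.measurable, Fin.prod_univ_succ,
      ← ih (fun j => m j.succ) (fun j => f j.succ) fun j => hf j.succ]
    have e : ∀ p : Ed (m 0) × (∀ j : Fin N, Ed (m j.succ)),
        ∏ i, f i (cns m p i) = f 0 p.1 * ∏ j : Fin N, f j.succ (p.2 j) := by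
      intro p
      rw [Fin.prod_univ_succ]
      rfl
    simp only [e]
    have hg : Measurable fun y : (∀ j : Fin N, Ed (m j.succ)) => ∏ j : Fin N, f j.succ (y j) :=
      Finset.measurable_prod _ fun j _ => (hf j.succ).comp (measurable_pi_apply j)
    exact lintegral_prod_mul (hf 0).aemeasurable hg.aemeasurable

/-- products of densities -/
theorem pi_dens {N : ℕ} (m : Fin N → ℕ) (f : ∀ i, Ed (m i) → ℝ≥0∞) (hf : ∀ i, Measurable (f i))
    (hfin : ∀ i, IsFiniteMeasure ((volume : Measure (Ed (m i))).withDensity (f i))) :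
    Measure.pi (fun i => (volume : Measure (Ed (m i))).withDensity (f i)) =
      (volume : Measure (∀ i, Ed (m i))).withDensity fun x => ∏ i, f i (x i) := by
  refine Measure.pi_eq fun s hs => ?_
  rw [withDensity_apply _ (MeasurableSet.univ_pi hs), ← lintegral_indicator (MeasurableSet.univ_pi hs)]
  have e : (fun x : ∀ i, Ed (m i) => (univ.pi s).indicator (fun x => ∏ i, f i (x i)) x) =
      fun x => ∏ i, (s i).indicator (f i) (x i) := by
    funext x
    by_cases hx : x ∈ univ.pi s
    · rw [indicator_of_mem hx]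
      exact Finset.prod_congr rfl fun i _ => (indicator_of_mem (hx i (mem_univ i)) _).symm
    · rw [indicator_of_notMem hx]
      simp only [Set.mem_pi, mem_univ, true_imp_iff, not_forall] at hx
      obtain ⟨i, hi⟩ := hx
      exact (Finset.prod_eq_zero (Finset.mem_univ i) (indicator_of_notMem hi _)).symm
  rw [e, lint_pi N m _ fun i => (hf i).indicator (hs i)]
  refine Finset.prod_congr rfl fun i _ => ?_
  rw [withDensity_apply _ (hs i), lintegral_indicator (hs i)]

end Pool.Agent.X166.DS
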