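import Pool.Agent.X166.DS.Sym
import Pool.Agent.X166.DS.Dens

/-!
# Left-invariant densities on matrices: isotropic position
-/

set_option autoImplicit false
set_option linter.unusedSectionVars false

namespace Pool.Agent.X166.DS

open MeasureTheory Set Filter Topology Matrix
open scoped ENNReal InnerProductSpace

/-- matrices as a Euclidean space -/
noncomputable def toE (a b : ℕ) :
    Matrix (Fin a) (Fin b) ℝ ≃ₗ[ℝ] EuclideanSpace ℝ (Fin a × Fin b) where
  toFun X := WithLp.toLp 2 fun p => X p.1 p.2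
  invFun Y := Matrix.of fun i j => Y (i, j)
  map_add' X Y := rfl
  map_smul' c X := rfl
  left_inv X := rfl
  right_inv Y := by ext p; rfl

variable {n a b : ℕ}

lemma sgn_mem (P : Fin a → Prop) [DecidablePred P] :
    (Matrix.diagonal fun i => if P i then (-1:ℝ) else 1) ∈ Matrix.orthogonalGroup (Fin a) ℝ := by
  rw [Matrix.mem_orthogonalGroup_iff, Matrix.diagonal_transpose,
    Matrix.diagonal_mul_diagonal, ← Matrix.diagonal_one]
  congr 1
  funext i
  split_ifs <;> norm_num

lemma perm_mem (σ : Equiv.Perm (Fin a)) :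
    ((σ.toPEquiv.toMatrix : Matrix (Fin a) (Fin a) ℝ)) ∈ Matrix.orthogonalGroup (Fin a) ℝ := by
  rw [Matrix.mem_orthogonalGroup_iff, ← PEquiv.toMatrix_symm, ← Equiv.toPEquiv_symm,
    PEquiv.toMatrix_toPEquiv_mul]
  ext i j
  rw [Matrix.submatrix_apply, PEquiv.toMatrix_apply, Equiv.toPEquiv_apply, Matrix.one_apply]
  simp [eq_comm]

lemma pd_fac {A : Matrix (Fin b) (Fin b) ℝ} (hA : A.PosDef) :
    ∃ B C : Matrix (Fin b) (Fin b) ℝ, A = Bᵀ * B ∧ B * C = 1 ∧ C * B = 1 := by
  obtain ⟨B, hB⟩ : ∃ B : Matrix (Fin b) (Fin b) ℝ, A = Bᵀ * B := by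
    open scoped MatrixOrder in
    obtain ⟨B, hB⟩ := CStarAlgebra.nonneg_iff_eq_star_mul_self.mp hA.posSemidef.nonneg
    exact ⟨B, by rw [hB, star_eq_conjTranspose, Matrix.conjTranspose_eq_transpose_of_trivial]⟩
  have hdet : IsUnit B.det := by
    have h1 : A.det ≠ 0 := hA.det_pos.ne'
    rw [hB, Matrix.det_mul, Matrix.det_transpose] at h1
    exact isUnit_iff_ne_zero.2 fun h => h1 (by rw [h, mul_zero])
  exact ⟨B, B⁻¹, hB, Matrix.mul_nonsing_inv B hdet, Matrix.nonsing_inv_mul B hdet⟩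

/-- right multiplication by an invertible matrix -/
noncomputable def rmul (B C : Matrix (Fin b) (Fin b) ℝ) (h1 : B * C = 1) (h2 : C * B = 1) :
    Matrix (Fin a) (Fin b) ℝ ≃ₗ[ℝ] Matrix (Fin a) (Fin b) ℝ where
  toFun X := X * C
  invFun X := X * B
  map_add' X Y := Matrix.add_mul _ _ _
  map_smul' c X := Matrix.smul_mul _ _ _
  left_inv X := by
    show X * C * B = X
    rw [Matrix.mul_assoc, h2, Matrix.mul_one]
  right_inv X := by
    show X * B * C = X
    rw [Matrix.mul_assoc, h1, Matrix.mul_one]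

/-- the density is invariant under the left action of the orthogonal group -/
def LI (e : Ed n ≃ₗ[ℝ] Matrix (Fin a) (Fin b) ℝ) (w : Ed n → ℝ) : Prop :=
  ∀ U ∈ Matrix.orthogonalGroup (Fin a) ℝ, ∀ x, w (e.symm (U * e x)) = w x

/-- the identification with the Euclidean space of matrices -/
noncomputable def iT (e : Ed n ≃ₗ[ℝ] Matrix (Fin a) (Fin b) ℝ) :
    Ed n ≃L[ℝ] EuclideanSpace ℝ (Fin a × Fin b) := (e.trans (toE a b)).toContinuousLinearEquiv

lemma iT_apply (e : Ed n ≃ₗ[ℝ] Matrix (Fin a) (Fin b) ℝ) (x : Ed n) (p : Fin a × Fin b) :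
    iT e x p = e x p.1 p.2 := rfl

lemma iT_symm (e : Ed n ≃ₗ[ℝ] Matrix (Fin a) (Fin b) ℝ) (Y : EuclideanSpace ℝ (Fin a × Fin b)) :
    (iT e).symm Y = e.symm (Matrix.of fun i j => Y (i, j)) := rfl

/-- the image measure -/
lemma dens_iT (e : Ed n ≃ₗ[ℝ] Matrix (Fin a) (Fin b) ℝ) {w : Ed n → ℝ} (hm : Measurable w) :
    ∃ c : NNReal, (volume.withDensity fun x => ENNReal.ofReal (w x)).map (iT e) =
      volume.withDensity fun Y => ENNReal.ofReal (c * w ((iT e).symm Y)) := by
  obtain ⟨c, hc⟩ := dens_map' volume volume (iT e) (D := fun x => ENNReal.ofReal (w x))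
    (ENNReal.measurable_ofReal.comp hm)
  refine ⟨c, hc.trans ?_⟩
  congr 1
  funext Y
  rw [ENNReal.ofReal_mul c.coe_nonneg, ENNReal.ofReal_coe_nnreal]

lemma LI.dens {e : Ed n ≃ₗ[ℝ] Matrix (Fin a) (Fin b) ℝ} {w : Ed n → ℝ} (h : LI e w)
    (g : Matrix (Fin a) (Fin a) ℝ) (hg : g ∈ Matrix.orthogonalGroup (Fin a) ℝ)
    (Y : EuclideanSpace ℝ (Fin a × Fin b)) :
    w ((iT e).symm (WithLp.toLp 2 fun p => ∑ k, g p.1 k * Y (k, p.2))) = w ((iT e).symm Y) := by
  rw [← h g hg ((iT e).symm Y), iT_symm, iT_symm, LinearEquiv.apply_symm_apply]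
  rfl

/-- the moments -/
lemma LI.cov {e : Ed n ≃ₗ[ℝ] Matrix (Fin a) (Fin b) ℝ} {w : Ed n → ℝ} (h : LI e w)
    (hm : Measurable w) {μ : Measure (Ed n)} (hμ : μ = volume.withDensity fun x => ENNReal.ofReal (w x)) :
    (∀ i j, ∫ x, e x i j ∂μ = 0) ∧ (∀ i k j l, i ≠ k → ∫ x, e x i j * e x k l ∂μ = 0) ∧
    ∀ i k j l, ∫ x, e x i j * e x i l ∂μ = ∫ x, e x k j * e x k l ∂μ := by
  obtain ⟨c, hc⟩ := dens_iT e hm
  rw [← hμ] at hc
  obtain ⟨ρ, hρ⟩ : ∃ ρ : EuclideanSpace ℝ (Fin a × Fin b) → ℝ, ρ = fun Y => c * w ((iT e).symm Y) :=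
    ⟨_, rfl⟩
  have hρm : Measurable ρ := by
    rw [hρ]
    exact (hm.comp (iT e).symm.continuous.measurable).const_mul _
  have hc' : μ.map (iT e) = volume.withDensity fun Y => ENNReal.ofReal (ρ Y) := by rw [hc, hρ]
  have hf : ∀ (P : Fin a → Prop) [DecidablePred P] (Y : EuclideanSpace ℝ (Fin a × Fin b)),
      ρ (flp (fun p => P p.1) Y) = ρ Y := fun P _ Y => by
    have h1 := h.dens _ (sgn_mem P) Y
    rw [hρ]
    simp only
    rw [← h1]
    congr 3
    ext p
    rw [flp_apply]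
    simp only [Matrix.diagonal_apply, ite_mul, zero_mul, Finset.sum_ite_eq, Finset.mem_univ, if_true]
    split_ifs <;> ring
  have hp : ∀ (σ : Equiv.Perm (Fin a)) (Y : EuclideanSpace ℝ (Fin a × Fin b)),
      ρ (prm (σ.prodCongr (Equiv.refl (Fin b))) Y) = ρ Y := fun σ Y => by
    have h1 := h.dens _ (perm_mem σ) Y
    rw [hρ]
    simp only
    rw [← h1]
    congr 3
    ext p
    rw [prm_apply]
    simp only [PEquiv.toMatrix_apply, Equiv.toPEquiv_apply, Option.mem_some_iff, ite_mul, one_mul,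
      zero_mul, Finset.sum_ite_eq, Finset.mem_univ, if_true]
    rfl
  have hI : ∀ F : EuclideanSpace ℝ (Fin a × Fin b) → ℝ,
      ∫ x, F (iT e x) ∂μ = ∫ Y, F Y ∂(μ.map (iT e)) := fun F =>
    ((iT e).toHomeomorph.measurableEmbedding.integral_map F).symm
  have hF : ∀ (P : Fin a → Prop) [DecidablePred P] (F : EuclideanSpace ℝ (Fin a × Fin b) → ℝ),
      ∫ x, F (flp (fun p => P p.1) (iT e x)) ∂μ = ∫ x, F (iT e x) ∂μ := fun P _ F => by
    rw [hI, hI (fun Y => F (flp (fun p => P p.1) Y)), hc']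
    exact inv_dens hρm _ (hf P) F
  have hG : ∀ (σ : Equiv.Perm (Fin a)) (F : EuclideanSpace ℝ (Fin a × Fin b) → ℝ),
      ∫ x, F (prm (σ.prodCongr (Equiv.refl (Fin b))) (iT e x)) ∂μ = ∫ x, F (iT e x) ∂μ := fun σ F => by
    rw [hI, hI (fun Y => F (prm (σ.prodCongr (Equiv.refl (Fin b))) Y)), hc']
    exact inv_dens hρm _ (hp σ) F
  refine ⟨fun i j => ?_, fun i k j l hik => ?_, fun i k j l => ?_⟩
  · have h1 := hF (fun _ => True) fun Y => Y (i, j)
    simp only [flp_apply, if_true, integral_neg, iT_apply] at h1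
    linarith
  · have h1 := hF (fun r => r = i) fun Y => Y (i, j) * Y (k, l)
    simp only [flp_apply, if_true, if_neg hik.symm, neg_mul, integral_neg, iT_apply] at h1
    linarith
  · have h1 := hG (Equiv.swap i k) fun Y => Y (i, j) * Y (i, l)
    simp only [prm_apply, Equiv.prodCongr_apply, Prod.map_apply, Equiv.refl_apply,
      Equiv.swap_apply_left, iT_apply] at h1
    exact h1.symm

/-- the isotropic position -/
theorem LI.iso {e : Ed n ≃ₗ[ℝ] Matrix (Fin a) (Fin b) ℝ} {w : Ed n → ℝ} (h : LI e w)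
    (hm : Measurable w) {μ : Measure (Ed n)} [IsProbabilityMeasure μ]
    (hμ : μ = volume.withDensity fun x => ENNReal.ofReal (w x))
    (hmom : Integrable (fun x => ‖x‖ ^ 2) μ) (ha : 0 < a) :
    ∃ e' : Ed n ≃ₗ[ℝ] Matrix (Fin a) (Fin b) ℝ, LI e' w ∧ Iso2 (μ.map (iT e')) := by
  obtain ⟨-, -, hcv⟩ := h.cov hm hμ
  obtain ⟨i0, -⟩ : ∃ i0 : Fin a, True := ⟨⟨0, ha⟩, trivial⟩
  have hint : ∀ (e : Ed n ≃ₗ[ℝ] Matrix (Fin a) (Fin b) ℝ) (i k : Fin a) (j l : Fin b),
      Integrable (fun x => e x i j * e x k l) μ := by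
    intro e i k j l
    have hl : ∀ (i : Fin a) (j : Fin b), ∃ g : Ed n →L[ℝ] ℝ, ∀ x, g x = e x i j := fun i j =>
      ⟨(EuclideanSpace.proj (𝕜 := ℝ) (i, j) : EuclideanSpace ℝ (Fin a × Fin b) →L[ℝ] ℝ).comp
        ((iT e : Ed n ≃L[ℝ] EuclideanSpace ℝ (Fin a × Fin b)) : Ed n →L[ℝ] _), fun x => rfl⟩
    obtain ⟨g1, h1⟩ := hl i j
    obtain ⟨g2, h2⟩ := hl k l
    have e1 : (fun x => e x i j * e x k l) = fun x => g1 x * g2 x := funext fun x => by rw [h1, h2]
    rw [e1]
    refine Integrable.mono' (((lin2 hmom g1).add (lin2 hmom g2)))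
      (g1.continuous.measurable.mul g2.continuous.measurable).aestronglyMeasurable
      (Eventually.of_forall fun x => ?_)
    rw [Real.norm_eq_abs, abs_le]
    simp only [Pi.add_apply]
    constructor <;> nlinarith [sq_nonneg (g1 x + g2 x), sq_nonneg (g1 x - g2 x), sq_nonneg (g1 x),
      sq_nonneg (g2 x)]
  obtain ⟨A, hA⟩ : ∃ A : Matrix (Fin b) (Fin b) ℝ, A = Matrix.of fun p q =>
      ∫ x, e x i0 p * e x i0 q ∂μ := ⟨_, rfl⟩
  have hA' : ∀ p q, A p q = ∫ x, e x i0 p * e x i0 q ∂μ := fun p q => by rw [hA]; rfl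
  -- the quadratic form
  have hq : ∀ c : Fin b → ℝ, c ⬝ᵥ (A *ᵥ c) = ∫ x, (∑ p, c p * e x i0 p) ^ 2 ∂μ := by
    intro c
    have e1 : ∀ x, (∑ p, c p * e x i0 p) ^ 2 = ∑ p, ∑ q, (c p * c q) * (e x i0 p * e x i0 q) := by
      intro x
      rw [sq, Finset.sum_mul_sum]
      exact Finset.sum_congr rfl fun p _ => Finset.sum_congr rfl fun q _ => by ring
    simp only [e1]
    rw [integral_finsetSum _ fun p _ => integrable_finsetSum _ fun q _ => (hint e i0 i0 p q).const_mul _]
    simp only [dotProduct, mulVec, Finset.mul_sum]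
    refine Finset.sum_congr rfl fun p _ => ?_
    rw [integral_finsetSum _ fun q _ => (hint e i0 i0 p q).const_mul _]
    refine Finset.sum_congr rfl fun q _ => ?_
    rw [integral_const_mul, hA']
    ring
  have hpd : A.PosDef := by
    refine Matrix.PosDef.of_dotProduct_mulVec_pos ?_ fun c hc => ?_
    · ext p q
      rw [Matrix.conjTranspose_apply, star_trivial, hA', hA']
      exact integral_congr_ae (Eventually.of_forall fun x => mul_comm _ _)
    · have e2 : star c = c := by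
        funext p
        rfl
      rw [e2, hq c]
      obtain ⟨g, hg⟩ : ∃ g : Ed n →ₗ[ℝ] ℝ, ∀ x, g x = ∑ p, c p * e x i0 p :=
        ⟨{ toFun := fun x => ∑ p, c p * e x i0 p
           map_add' := fun x y => by
            rw [← Finset.sum_add_distrib]
            refine Finset.sum_congr rfl fun p _ => ?_
            rw [map_add, Matrix.add_apply, mul_add]
           map_smul' := fun r x => by
            rw [RingHom.id_apply, smul_eq_mul, Finset.mul_sum]
            refine Finset.sum_congr rfl fun p _ => ?_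
            rw [map_smul, Matrix.smul_apply, smul_eq_mul]
            ring }, fun x => rfl⟩
      have hg' : (fun x => (∑ p, c p * e x i0 p) ^ 2) = fun x => g x ^ 2 := funext fun x => by rw [hg]
      rw [hg']
      have hgi : Integrable (fun x => g x ^ 2) μ := lin2 hmom (LinearMap.toContinuousLinearMap g)
      refine lt_of_le_of_ne (integral_nonneg fun x => sq_nonneg _) fun h0 => ?_
      have h1 := (integral_eq_zero_iff_of_nonneg (fun x => sq_nonneg (g x)) hgi).1 h0.symm
      have h2 : ∀ᵐ x ∂μ, x ∈ (LinearMap.ker g : Set (Ed n)) := by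
        filter_upwards [h1] with x hx
        have : g x ^ 2 = 0 := hx
        exact LinearMap.mem_ker.2 (pow_eq_zero_iff two_ne_zero |>.1 this)
      have hne : LinearMap.ker g ≠ ⊤ := by
        intro htop
        refine hc (funext fun p => ?_)
        have h3 : g (e.symm (Matrix.of fun i j => if i = i0 ∧ j = p then 1 else 0)) = 0 := by
          rw [← LinearMap.mem_ker, htop]
          trivial
        rw [hg] at h3
        simpa using h3
      have h4 : volume (LinearMap.ker g : Set (Ed n)) = 0 := Measure.addHaar_submodule _ _ hne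
      have h5 : μ (LinearMap.ker g : Set (Ed n)) = 0 := by
        rw [hμ]
        exact withDensity_absolutelyContinuous _ _ h4
      have h6 : μ (LinearMap.ker g : Set (Ed n))ᶜ = 0 := h2
      have h7 : μ univ ≤ 0 := by
        rw [← union_compl_self (LinearMap.ker g : Set (Ed n))]
        refine (measure_union_le _ _).trans ?_
        rw [h5, h6, add_zero]
      rw [measure_univ] at h7
      exact absurd h7 (by norm_num)
  obtain ⟨B, C, hB, h1, h2⟩ := pd_fac hpd
  obtain ⟨e', he'⟩ : ∃ e' : Ed n ≃ₗ[ℝ] Matrix (Fin a) (Fin b) ℝ, e' = e.trans (rmul B C h1 h2) :=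
    ⟨_, rfl⟩
  have hx : ∀ x, e' x = e x * C := fun x => by rw [he']; rfl
  have hs : ∀ X, e'.symm X = e.symm (X * B) := fun X => by rw [he']; rfl
  have hLI : LI e' w := by
    intro U hU x
    rw [hs, hx, Matrix.mul_assoc, Matrix.mul_assoc, h2, Matrix.mul_one]
    exact h U hU x
  obtain ⟨k1, k2, k3⟩ := hLI.cov hm hμ
  have hcov : ∀ i j l, ∫ x, e' x i j * e' x i l ∂μ = if j = l then 1 else 0 := by
    intro i j l
    have e1 : ∀ x, e' x i j * e' x i l = ∑ p, ∑ q, (C p j * C q l) * (e x i p * e x i q) := by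
      intro x
      rw [hx, Matrix.mul_apply, Matrix.mul_apply, Finset.sum_mul_sum]
      exact Finset.sum_congr rfl fun p _ => Finset.sum_congr rfl fun q _ => by ring
    simp only [e1]
    rw [integral_finsetSum _ fun p _ => integrable_finsetSum _ fun q _ => (hint e i i p q).const_mul _]
    have e2 : ∀ p, ∫ x, ∑ q, (C p j * C q l) * (e x i p * e x i q) ∂μ = ∑ q, C p j * (A p q * C q l) := by
      intro p
      rw [integral_finsetSum _ fun q _ => (hint e i i p q).const_mul _]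
      refine Finset.sum_congr rfl fun q _ => ?_
      rw [integral_const_mul, hcv i i0, hA']
      ring
    simp only [e2]
    have e3 : Cᵀ * (A * C) = 1 := by
      rw [hB, Matrix.mul_assoc Bᵀ, h1, Matrix.mul_one, ← Matrix.transpose_mul, h1, Matrix.transpose_one]
    have e4 := congrFun (congrFun e3 j) l
    rw [Matrix.one_apply, Matrix.mul_apply] at e4
    rw [← e4]
    refine Finset.sum_congr rfl fun p _ => ?_
    rw [Matrix.transpose_apply, Matrix.mul_apply, Finset.mul_sum]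
  have hI : ∀ F : EuclideanSpace ℝ (Fin a × Fin b) → ℝ,
      ∫ Y, F Y ∂(μ.map (iT e')) = ∫ x, F (iT e' x) ∂μ := fun F =>
    (iT e').toHomeomorph.measurableEmbedding.integral_map F
  refine ⟨e', hLI, fun i => ?_, fun i j hij => ?_, fun i j => ?_⟩
  · rw [hI]
    exact k1 i.1 i.2
  · rw [hI]
    simp only [iT_apply]
    by_cases hr : i.1 = j.1
    · have hc : i.2 ≠ j.2 := fun hc => hij (Prod.ext hr hc)
      rw [hr, hcov, if_neg hc]
    · exact k2 _ _ _ _ hr
  · rw [hI, hI]
    simp only [iT_apply, sq]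
    rw [hcov, hcov, if_pos rfl, if_pos rfl]

end Pool.Agent.X166.DS
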