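import Pool.Agent.X166.DS.Bridge
import Pool.Agent.X166.DS.MatA
import Pool.Agent.H212R2.KLS.G1
import Pool.Agent.H212R2.KLS.G2

/-!
# Blocks: left-invariant weights on matrices

The Poincaré inequality for log-concave measures on matrices which are invariant under left
multiplication by orthogonal matrices is the one behind the starting result
`MP_6d896a_gt.OrthogonalInvariant`.
-/

set_option autoImplicit false
set_option linter.unusedSectionVars false

namespace Pool.Agent.X166.DS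

open MeasureTheory Set Filter Topology Matrix
open scoped ENNReal InnerProductSpace
open Pool.Agent.Y506.RG (EW VW Adm Star pm pm_prob pm_int pm_integrable lint_w VW_const_mul)
open Pool.Agent.Y506.PV (CcW ind wPhi Hom)

theorem leftinv : ∃ C : ℝ, 0 < C ∧ ∀ m n : ℕ, 3 ≤ m → n ≤ m →
    ∀ ρ : EuclideanSpace ℝ (Fin m × Fin n) → ℝ, H212R2.KLS.Dens m n ρ →
    ∀ μ : Measure (EuclideanSpace ℝ (Fin m × Fin n)),
    μ = volume.withDensity (fun X => ENNReal.ofReal (ρ X)) → IsProbabilityMeasure μ →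
    ∀ s : ℝ, 0 < s →
    (∀ θ : EuclideanSpace ℝ (Fin m × Fin n),
      ∫⁻ X, ENNReal.ofReal (⟪θ, X⟫_ℝ ^ 2) ∂μ ≤ ENNReal.ofReal (s * ‖θ‖ ^ 2)) →
    ∀ f : EuclideanSpace ℝ (Fin m × Fin n) → ℝ, ContDiff ℝ 1 f → MemLp f 2 μ →
    ENNReal.ofReal (ProbabilityTheory.variance f μ) ≤
      ENNReal.ofReal (C * s) * ∫⁻ X, ENNReal.ofReal (‖fderiv ℝ f X‖ ^ 2) ∂μ := by
  obtain ⟨C, hC, h⟩ := H212R2.KLS.main_of H212R2.KLS.core
    (fun hρ hm => (H212R2.KLS.Dens.basic hρ hm).2.2.2.2)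
  refine ⟨C, hC, ?_⟩
  intro m n hm hnm ρ hρ μ hμ hprob s hs hmom f hf hfL
  subst hμ
  have h1 := h hm hnm ρ hρ hprob.measure_univ s hs hmom f hf hfL
  rw [ProbabilityTheory.variance_eq_integral hfL.aestronglyMeasurable.aemeasurable]
  exact h1

/-- left-invariant log-concave weights satisfy the affine invariant Poincaré inequality -/
theorem sp_left : ∃ C : ℝ, 0 < C ∧ ∀ (n a b : ℕ), 3 ≤ a → 1 ≤ b → b ≤ a →
    ∀ (e : Ed n ≃ₗ[ℝ] Matrix (Fin a) (Fin b) ℝ) (w : Ed n → ℝ), Adm w →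
    (∀ x y, ∀ t : ℝ, 0 < t → t < 1 → w x ^ (1 - t) * w y ^ t ≤ w ((1 - t) • x + t • y)) →
    LI e w → SPm C (pm w) := by
  obtain ⟨C, hC, H⟩ := leftinv
  refine ⟨C, hC, fun n a b ha hb hba e w hA hlc hsym => ?_⟩
  have hprob := pm_prob hA
  obtain ⟨Z, hZ⟩ : ∃ Z, Z = ∫ x, w x := ⟨_, rfl⟩
  have hZ0 : 0 < Z := by rw [hZ]; exact hA.pos
  obtain ⟨w0, hw0⟩ : ∃ w0 : Ed n → ℝ, w0 = fun x => Z⁻¹ * w x := ⟨_, rfl⟩
  have hm0 : Measurable w0 := by rw [hw0]; exact hA.meas.const_mul _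
  have hpm : pm w = volume.withDensity fun x => ENNReal.ofReal (w0 x) := by
    rw [pm_dens hA, lint_w hA, ← hZ, hw0]
    congr 1
    funext x
    rw [ENNReal.ofReal_mul (by positivity), ENNReal.ofReal_inv_of_pos hZ0]
  have hLI0 : LI e w0 := fun U hU x => by
    rw [hw0]
    simp only
    rw [hsym U hU x]
  obtain ⟨e', hLI, hiso⟩ := hLI0.iso hm0 hpm (pm_mom hA) (by omega)
  obtain ⟨c, hc⟩ := dens_iT e' hm0
  rw [← hpm] at hc
  obtain ⟨ρ, hρ⟩ : ∃ ρ : EuclideanSpace ℝ (Fin a × Fin b) → ℝ, ρ = fun Y => c * w0 ((iT e').symm Y) :=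
    ⟨_, rfl⟩
  have hc' : (pm w).map (iT e') = volume.withDensity fun Y => ENNReal.ofReal (ρ Y) := by rw [hc, hρ]
  have hD : H212R2.KLS.Dens a b ρ := by
    have hcn : (0:ℝ) ≤ c := c.coe_nonneg
    refine ⟨fun Y => ?_, ?_, fun X Y t h0 h1 => ?_, fun g hg Y => ?_⟩
    · rw [hρ, hw0]
      exact mul_nonneg hcn (mul_nonneg (by positivity) (hA.nonneg _))
    · rw [hρ]
      exact (hm0.comp (iT e').symm.continuous.measurable).const_mul _
    · rw [hρ, hw0]
      simp only
      rw [← mul_assoc, ← mul_assoc, ← mul_assoc]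
      have hk : 0 ≤ (c:ℝ) * Z⁻¹ := mul_nonneg hcn (by positivity)
      rw [Real.mul_rpow hk (hA.nonneg _), Real.mul_rpow hk (hA.nonneg _)]
      have e1 : ((c:ℝ) * Z⁻¹) ^ (1 - t) * ((c:ℝ) * Z⁻¹) ^ t = (c:ℝ) * Z⁻¹ := by
        rw [← Real.rpow_add_of_nonneg hk (by linarith) h0.le, sub_add_cancel, Real.rpow_one]
      have e2 : (iT e').symm ((1 - t) • X + t • Y) = (1 - t) • (iT e').symm X + t • (iT e').symm Y := by
        rw [map_add, map_smul, map_smul]
      rw [e2]
      calc _ = (((c:ℝ) * Z⁻¹) ^ (1 - t) * ((c:ℝ) * Z⁻¹) ^ t) *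
            (w ((iT e').symm X) ^ (1 - t) * w ((iT e').symm Y) ^ t) := by ring
        _ = (c:ℝ) * Z⁻¹ * (w ((iT e').symm X) ^ (1 - t) * w ((iT e').symm Y) ^ t) := by rw [e1]
        _ ≤ _ := mul_le_mul_of_nonneg_left (hlc _ _ t h0 h1) hk
    · rw [hρ]
      simp only
      congr 1
      exact hLI.dens g hg Y
  have hpr : IsProbabilityMeasure ((pm w).map (iT e')) :=
    Measure.isProbabilityMeasure_map (iT e').continuous.measurable.aemeasurable
  have hmom : Integrable (fun Y : EuclideanSpace ℝ (Fin a × Fin b) => ‖Y‖ ^ 2)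
      ((pm w).map (iT e')) := by
    have hcn : Continuous fun y : EuclideanSpace ℝ (Fin a × Fin b) => ‖y‖ ^ 2 := continuous_norm.pow 2
    rw [integrable_map_measure hcn.measurable.aestronglyMeasurable
      (iT e').continuous.measurable.aemeasurable]
    refine Integrable.mono' ((pm_mom hA).const_mul (‖(iT e').toContinuousLinearMap‖ ^ 2))
      (hcn.comp (iT e').continuous).measurable.aestronglyMeasurable (Eventually.of_forall fun x => ?_)
    rw [Real.norm_eq_abs, Function.comp_apply, abs_of_nonneg (sq_nonneg _), ← mul_pow]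
    exact pow_le_pow_left₀ (norm_nonneg _)
      ((iT e').toContinuousLinearMap.le_opNorm x) 2
  have h1 : SPm C ((pm w).map (iT e')) :=
    sp_of_inv hiso hmom hC (⟨0, by omega⟩, ⟨0, by omega⟩) fun s hs hm2 f hf hfL =>
      H a b ha hba ρ hD _ hc' hpr s hs hm2 f hf hfL
  have h2 := h1.map (iT e').symm.toContinuousLinearMap
  have e3 : (((pm w).map (iT e')).map (iT e').symm.toContinuousLinearMap) = pm w := by
    rw [Measure.map_map (ContinuousLinearMap.continuous _).measurable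
      (iT e').continuous.measurable]
    have : ((iT e').symm.toContinuousLinearMap : EuclideanSpace ℝ (Fin a × Fin b) → Ed n) ∘
        (iT e') = id := by
      funext x
      simp
    rw [this, Measure.map_id]
  rwa [e3] at h2

end Pool.Agent.X166.DS
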