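import Pool.Agent.X166.DS.One
import Pool.Agent.X166.DS.Mat

/-!
# Direct sums of symmetric blocks
-/

set_option autoImplicit false
set_option linter.unusedSectionVars false

namespace Pool.Agent.X166.DS

open MeasureTheory Set Filter Topology
open scoped ENNReal InnerProductSpace
open Pool.Agent.Y506.RG (EW VW Adm Star pm pm_prob pm_int pm_integrable lint_w VW_const_mul)
open Pool.Agent.Y506.PV (CcW ind wPhi Hom adm_ind vol_pos)

/-- a norm -/
structure IsNm {m : ℕ} (M : Ed m → ℝ) : Prop where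
  hom : ∀ (r : ℝ) (x : Ed m), M (r • x) = |r| * M x
  tri : ∀ x y, M (x + y) ≤ M x + M y
  pos : ∀ x, x ≠ 0 → 0 < M x

/-- the symmetries of a block -/
def Blk {m : ℕ} (M : Ed m → ℝ) : Prop :=
  (∀ (σ : Equiv.Perm (Fin m)) (x y : Ed m), (∀ i, |y i| = |x (σ i)|) → M y = M x) ∨
  ∃ (a b : ℕ) (e : Ed m ≃ₗ[ℝ] Matrix (Fin a) (Fin b) ℝ), 3 ≤ a ∧ 1 ≤ b ∧ b ≤ a ∧ LI e M

variable {m : ℕ} {M : Ed m → ℝ}

lemma IsNm.nonneg (h : IsNm M) (x : Ed m) : 0 ≤ M x := by
  by_cases hx : x = 0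
  · have := h.hom 0 0
    rw [smul_zero, abs_zero, zero_mul] at this
    rw [hx, this]
  · exact (h.pos x hx).le

lemma IsNm.conv (h : IsNm M) : ConvexOn ℝ univ M := by
  refine ⟨convex_univ, fun x _ y _ a b ha hb _ => ?_⟩
  have h1 := h.tri (a • x) (b • y)
  rw [h.hom, h.hom, abs_of_nonneg ha, abs_of_nonneg hb] at h1
  exact h1

lemma IsNm.pn (h : IsNm M) {p : ℝ} (hp : 1 ≤ p) : PN p fun x => M x ^ p := by
  have hcv : ConvexOn ℝ univ fun x => M x ^ p := by
    refine ⟨convex_univ, fun x _ y _ a b ha hb hab => ?_⟩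
    have h1 := h.conv.2 (mem_univ x) (mem_univ y) ha hb hab
    have h2 := (convexOn_rpow hp).2 (mem_Ici.2 (h.nonneg x)) (mem_Ici.2 (h.nonneg y)) ha hb hab
    exact (Real.rpow_le_rpow (h.nonneg _) h1 (by linarith)).trans h2
  refine ⟨hcv.locallyLipschitz.continuous, fun r x hr => ?_, hcv, fun x hx =>
    Real.rpow_pos_of_pos (h.pos x hx) p⟩
  rw [h.hom, abs_of_pos hr, Real.mul_rpow hr.le (h.nonneg x)]

lemma ew_lc {p : ℝ} {n : ℕ} {Φ : Ed n → ℝ} (h : PN p Φ) (x y : Ed n) (t : ℝ) (h0 : 0 < t) (h1 : t < 1) :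
    ew Φ x ^ (1 - t) * ew Φ y ^ t ≤ ew Φ ((1 - t) • x + t • y) := by
  unfold ew
  rw [← Real.exp_mul, ← Real.exp_mul, ← Real.exp_add]
  refine Real.exp_le_exp.2 ?_
  have := h.conv.2 (mem_univ x) (mem_univ y) (by linarith : 0 ≤ 1 - t) h0.le (by ring)
  simp only [smul_eq_mul] at this
  linarith

lemma ind_lc {n : ℕ} {K : Set (Ed n)} (h : Convex ℝ K) (x y : Ed n) (t : ℝ) (h0 : 0 < t) (h1 : t < 1) :
    ind K x ^ (1 - t) * ind K y ^ t ≤ ind K ((1 - t) • x + t • y) := by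
  unfold ind
  by_cases hx : x ∈ K
  · by_cases hy : y ∈ K
    · have h2 : (1 - t) • x + t • y ∈ K := h hx hy (by linarith) h0.le (by ring)
      rw [indicator_of_mem hx, indicator_of_mem hy, indicator_of_mem h2, Real.one_rpow,
        Real.one_rpow, mul_one]
    · rw [indicator_of_notMem hy, Real.zero_rpow h0.ne', mul_zero]
      exact indicator_nonneg (fun _ _ => zero_le_one) _
  · rw [indicator_of_notMem hx, Real.zero_rpow (by linarith), zero_mul]
    exact indicator_nonneg (fun _ _ => zero_le_one) _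

lemma SPm.mono {n : ℕ} {k k' : ℝ} (hk : k ≤ k') {μ : Measure (Ed n)} (h : SPm k μ) : SPm k' μ := by
  refine ⟨h.prob, h.mom, fun f B L hf => (h.ineq f B L hf).trans ?_⟩
  have := h.prob
  exact mul_le_mul_of_nonneg_right hk (integral_nonneg fun x => (Vr_bd h.mom _).1)

lemma CcW.mono {n : ℕ} {κ κ' δ : ℝ} (hk : κ ≤ κ') {w : Ed n → ℝ} (h : CcW κ' δ w) : CcW κ δ w :=
  fun d hd T s hs hvar v hv hv1 hvl => h d hd T s hs hvar v hv hv1 fun y =>
    (hvl y).trans (div_le_div_of_nonneg_right hk (Real.sqrt_nonneg s))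

/-- weights which depend on a block norm only -/
theorem sp_blk : ∃ C : ℝ, 0 < C ∧ ∀ (m : ℕ) (M : Ed m → ℝ), 1 ≤ m → Blk M →
    ∀ (g : ℝ → ℝ), Adm (fun x => g (M x)) →
    (∀ x y, ∀ t : ℝ, 0 < t → t < 1 →
      g (M x) ^ (1 - t) * g (M y) ^ t ≤ g (M ((1 - t) • x + t • y))) →
    SPm C (pm fun x => g (M x)) := by
  obtain ⟨C1, hC1, H1⟩ := sp_sym
  obtain ⟨C2, hC2, H2⟩ := sp_left
  refine ⟨C1 + C2, by positivity, fun m M hm hB g hA hlc => ?_⟩
  rcases hB with hB | ⟨a, b, e, ha, hb, hba, hB⟩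
  · exact (H1 m hm _ hA hlc fun σ x y hxy => by rw [hB σ x y hxy]).mono (by linarith)
  · exact (H2 m a b ha hb hba e _ hA hlc fun U hU x => by rw [hB U hU x]).mono (by linarith)

/-- the bodies -/
def Cls (p : ℝ) (d : ℕ) (K : Set (Ed d)) : Prop :=
  ∃ (N : ℕ) (m : Fin N → ℕ) (M : ∀ i, Ed (m i) → ℝ) (L : Ed d ≃ₗ[ℝ] (∀ i, Ed (m i))),
    (∀ i, 1 ≤ m i) ∧ (∀ i, IsNm (M i)) ∧ (∀ i, Blk (M i)) ∧
    (K = {x | ∑ i, M i (L x i) ^ p ≤ 1} ∨ K = {x | ∀ i, M i (L x i) ≤ 1})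

lemma cls_body {p : ℝ} (hp : 1 ≤ p) {d : ℕ} {K : Set (Ed d)} (h : Cls p d K) :
    IsCompact K ∧ Convex ℝ K ∧ (interior K).Nonempty := by
  obtain ⟨N, m, M, L, hm, hM, -, hK⟩ := h
  obtain ⟨L', hL'⟩ : ∃ L' : Ed d ≃L[ℝ] (∀ i, Ed (m i)), ∀ x, L' x = L x :=
    ⟨L.toContinuousLinearEquiv, fun x => rfl⟩
  simp only [← hL'] at hK
  have hP := PN.sum (fun i => (hM i).pn hp) hp L'
  rcases hK with hK | hK
  · rw [hK]
    exact ⟨Metric.isCompact_of_isClosed_isBounded hP.closed (hP.bdd hp), hP.convs, hP.int hp⟩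
  · have hsub : {x | ∑ i, M i (L' x i) ^ p ≤ 1} ⊆ K := by
      intro x hx
      rw [hK]
      intro i
      have h1 : M i (L' x i) ^ p ≤ 1 := by
        refine le_trans ?_ (hx : ∑ i, M i (L' x i) ^ p ≤ 1)
        exact Finset.single_le_sum (f := fun i => M i (L' x i) ^ p)
          (fun j _ => Real.rpow_nonneg ((hM j).nonneg _) p) (Finset.mem_univ i)
      by_contra hc
      rw [not_le] at hc
      exact absurd h1 (not_le.2 (Real.one_lt_rpow hc (by linarith)))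
    have hcl : IsClosed K := by
      have : K = ⋂ i, {x | M i (L' x i) ≤ 1} := by
        rw [hK]
        ext x
        simp
      rw [this]
      refine isClosed_iInter fun i => isClosed_le ?_ continuous_const
      exact (hM i).conv.locallyLipschitz.continuous.comp ((continuous_apply i).comp L'.continuous)
    have hcv : Convex ℝ K := by
      rw [hK]
      intro x hx y hy a b ha hb hab i
      have h1 := (hM i).conv.2 (mem_univ (L' x i)) (mem_univ (L' y i)) ha hb hab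
      simp only [smul_eq_mul] at h1
      have hx1 : M i (L' x i) ≤ 1 := hx i
      have hy1 : M i (L' y i) ≤ 1 := hy i
      rw [map_add, map_smul, map_smul]
      exact h1.trans (by nlinarith)
    have hbd : Bornology.IsBounded K := by
      have hN : 0 < (N:ℝ) + 1 := by positivity
      obtain ⟨ρ, hρ⟩ : ∃ ρ : ℝ, ρ = ((N:ℝ) + 1) ^ (1 / p) := ⟨_, rfl⟩
      have hρ0 : 0 < ρ := by rw [hρ]; positivity
      have hρp : ρ ^ p = (N:ℝ) + 1 := by
        rw [hρ, ← Real.rpow_mul hN.le, one_div_mul_cancel (by linarith), Real.rpow_one]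
      obtain ⟨R, hR⟩ := (hP.bdd hp).exists_norm_le
      refine (Metric.isBounded_closedBall (x := (0 : Ed d)) (r := ρ * R)).subset fun x hx => ?_
      rw [mem_closedBall_zero_iff]
      have h1 : ρ⁻¹ • x ∈ {x | ∑ i, M i (L' x i) ^ p ≤ 1} := by
        show ∑ i, M i (L' (ρ⁻¹ • x) i) ^ p ≤ 1
        rw [hP.hom _ _ (by positivity)]
        rw [hK] at hx
        have h2 : ∑ i, M i (L' x i) ^ p ≤ (N:ℝ) + 1 := by
          calc ∑ i, M i (L' x i) ^ p ≤ ∑ _i : Fin N, (1:ℝ) :=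
                Finset.sum_le_sum fun i _ => Real.rpow_le_one ((hM i).nonneg _) (hx i) (by linarith)
            _ = (N:ℝ) := by simp
            _ ≤ _ := by linarith
        rw [Real.inv_rpow hρ0.le, hρp, inv_mul_le_iff₀ hN, mul_one]
        exact h2
      have h3 := hR _ h1
      rw [norm_smul, norm_inv, Real.norm_eq_abs, abs_of_pos hρ0, inv_mul_le_iff₀ hρ0] at h3
      exact h3
    exact ⟨Metric.isCompact_of_isClosed_isBounded hcl hbd, hcv,
      (hP.int hp).mono (interior_mono hsub)⟩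

lemma unit_body (h : IsNm M) : IsCompact {x | M x ≤ 1} ∧ Convex ℝ {x | M x ≤ 1} ∧
    (interior {x | M x ≤ 1}).Nonempty := by
  have hP := h.pn (le_refl 1)
  have e : {x | M x ^ (1:ℝ) ≤ 1} = {x | M x ≤ 1} := by
    simp only [Real.rpow_one]
  have h1 := hP.closed
  have h2 := hP.bdd (le_refl 1)
  have h3 := hP.convs
  have h4 := hP.int (le_refl 1)
  rw [e] at h1 h2 h3 h4
  exact ⟨Metric.isCompact_of_isClosed_isBounded h1 h2, h3, h4⟩

/-- concentration for the class -/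
theorem cls_cc {p : ℝ} (hp : 1 ≤ p) (δ : ℝ) (hδ : 0 < δ) : ∃ κ : ℝ, 0 < κ ∧ ∀ d K, 1 ≤ d →
    Cls p d K → CcW κ δ (ind K) := by
  obtain ⟨C, hC, H⟩ := sp_blk
  obtain ⟨κ1, hκ1, H1⟩ := cc_ball hp hC δ hδ
  obtain ⟨κ2, hκ2, H2⟩ : ∃ κ2 : ℝ, 0 < κ2 ∧ κ2 = Real.sqrt (δ / C) :=
    ⟨_, Real.sqrt_pos.2 (by positivity), rfl⟩
  refine ⟨min κ1 κ2, lt_min hκ1 hκ2, fun d K hd hK => ?_⟩
  have hbody := cls_body hp hK
  obtain ⟨N, m, M, L, hm, hM, hB, hK⟩ := hK
  obtain ⟨L', hL'⟩ : ∃ L' : Ed d ≃L[ℝ] (∀ i, Ed (m i)), ∀ x, L' x = L x :=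
    ⟨L.toContinuousLinearEquiv, fun x => rfl⟩
  simp only [← hL'] at hK
  have hP := PN.sum (fun i => (hM i).pn hp) hp L'
  rcases hK with hK | hK
  · refine CcW.mono (min_le_left _ _) ?_
    rw [hK]
    refine H1 d _ hd hP (sp_sum hp hm (fun i => (hM i).pn hp) (fun i => ?_) hd L')
    have hA := ((hM i).pn hp).adm hp (hm i)
    exact H (m i) (M i) (hm i) (hB i) (fun s => Real.exp (-(s ^ p))) hA
      (fun x y t h0 h1 => ew_lc ((hM i).pn hp) x y t h0 h1)
  · refine CcW.mono (min_le_right _ _) ?_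
    rw [H2]
    obtain ⟨hb1, hb2, hb3⟩ := hbody
    have hW : Adm (ind K) := adm_ind _ hb1.measurableSet hb1.isBounded (vol_pos hb3)
    refine cc_of_sp hC hW ?_ hδ
    have hA : ∀ i, Adm (ind {x | M i x ≤ 1}) := fun i =>
      adm_ind _ (unit_body (hM i)).1.measurableSet (unit_body (hM i)).1.isBounded
        (vol_pos (unit_body (hM i)).2.2)
    have hs : ∀ i, SPm C (pm (ind {x | M i x ≤ 1})) := fun i => by
      have e1 : ind {x | M i x ≤ 1} = fun x => (fun s : ℝ => if s ≤ 1 then (1:ℝ) else 0) (M i x) := by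
        funext x
        unfold ind
        by_cases hx : M i x ≤ 1
        · rw [indicator_of_mem (show x ∈ {x | M i x ≤ 1} from hx)]
          simp [hx]
        · rw [indicator_of_notMem (show x ∉ {x | M i x ≤ 1} from hx)]
          simp [hx]
      have hA' := hA i
      have hlc := fun x y t h0 h1 => ind_lc (unit_body (hM i)).2.1 x y t h0 h1
      rw [e1] at hA' hlc ⊢
      exact H (m i) (M i) (hm i) (hB i) _ hA' hlc
    rw [← pm_pi hA L' hW fun x => ?_]
    · exact (SPm.pi N m _ hs).map (L'.symm : (∀ i, Ed (m i)) →L[ℝ] Ed d)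
    · rw [hK]
      unfold ind
      by_cases hx : ∀ i, M i (L' x i) ≤ 1
      · rw [indicator_of_mem (show x ∈ {x | ∀ i, M i (L' x i) ≤ 1} from hx)]
        refine (Finset.prod_eq_one fun i _ => ?_).symm
        exact indicator_of_mem (show L' x i ∈ {x | M i x ≤ 1} from hx i) _
      · rw [indicator_of_notMem (show x ∉ {x | ∀ i, M i (L' x i) ≤ 1} from hx)]
        obtain ⟨i, hi⟩ := not_forall.1 hx
        refine (Finset.prod_eq_zero (Finset.mem_univ i) ?_).symm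
        exact indicator_of_notMem (show L' x i ∉ {x | M i x ≤ 1} from hi) _

/-- **the functional inequality for images of direct sums** -/
theorem fin_ds (r : ℕ) (p : ℝ) (hp : 1 ≤ p) : ∃ c : ℝ, 0 < c ∧ ∀ (n m : ℕ) (K : Set (Ed m))
    (A : Ed m →ₗ[ℝ] Ed n), 1 ≤ n → m ≤ n + r → Cls p m K → Function.Surjective A →
    IsCompact (A '' K) ∧ Convex ℝ (A '' K) ∧ (interior (A '' K)).Nonempty ∧ Star c (ind (A '' K)) :=
  star_image r (Cls p) (fun _ _ h => cls_body hp h) fun δ hδ => cls_cc hp δ hδ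

end Pool.Agent.X166.DS
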