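import Pool.Agent.X166.DS.Final
import Pool.Agent.X166.DS.Ext
import Pool.Agent.Y506.PV.Mom

/-!
# Sums of independent symmetric vectors
-/

set_option autoImplicit false
set_option linter.unusedSectionVars false

namespace Pool.Agent.X166.DS

open MeasureTheory Set Filter Topology
open scoped ENNReal InnerProductSpace
open Pool.Agent.Y506.RG (Adm pm pm_prob)

/-- linear images of products of symmetric log-concave measures -/
theorem sp_ind : ∃ C : ℝ, 0 < C ∧ ∀ (N : ℕ) (m : Fin N → ℕ) (w : ∀ i, Ed (m i) → ℝ),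
    (∀ i, 1 ≤ m i) → (∀ i x, 0 ≤ w i x) → (∀ i, Measurable (w i)) →
    (∀ i x y, ∀ t : ℝ, 0 < t → t < 1 → w i x ^ (1 - t) * w i y ^ t ≤ w i ((1 - t) • x + t • y)) →
    (∀ i, 0 < ∫ x, w i x) → (∀ i, Blk (w i)) → ∀ (n : ℕ) (T : (∀ i, Ed (m i)) →L[ℝ] Ed n),
    SPm C ((Measure.pi fun i => pm (w i)).map T) := by
  obtain ⟨C, hC, H⟩ := sp_blk
  refine ⟨C, hC, fun N m w hm h0 hme hlc hpos hB n T => ?_⟩
  have hA : ∀ i, Adm (w i) := fun i =>
    ⟨h0 i, Pool.Agent.Y506.PV.int_moment (h0 i) (hme i) (hlc i) (hpos i), hpos i, hme i⟩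
  have hs : ∀ i, SPm C (pm (w i)) := fun i =>
    H (m i) (w i) (hm i) (hB i) (fun s => s) (hA i) (hlc i)
  exact (SPm.pi N m _ hs).map T

end Pool.Agent.X166.DS
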