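import Pool.Agent.X166.DS.Bridge
import Pool.Agent.W586.SK.Core
import Pool.Agent.W724.SK.Trans
import Pool.Agent.W280.SK.ZZ
import Pool.Agent.W876.SK.IBP
import Pool.Agent.W193.SK.Lim
import Pool.Agent.W923.SK.Field
import Pool.Agent.W924.SK.Flow
import Pool.Agent.W364.SK.Half
import Pool.Agent.W154.SK.Cut
import Pool.Agent.W50.SK.Hardy
import Pool.Agent.W586.SK.Even
import Pool.Agent.W608.SK.PAR
import Pool.Agent.W632.SK.Low
import Pool.Agent.W712.SK.Up
import Pool.Agent.W58.SK.Tail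
import Pool.Agent.W108.SK.Bas
import Pool.Agent.W348.SK.Main

/-!
# Blocks: 1-symmetric weights

The Poincaré inequality for 1-symmetric log-concave measures is the one behind the starting result
`MP_6d896a_gt.OneSymmetric`.
-/

set_option autoImplicit false
set_option linter.unusedSectionVars false

namespace Pool.Agent.X166.DS

open MeasureTheory Set Filter Topology
open scoped ENNReal InnerProductSpace
open Pool.Agent.Y506.RG (EW VW Adm Star pm pm_prob pm_int pm_integrable lint_w VW_const_mul)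
open Pool.Agent.Y506.PV (CcW ind wPhi Hom)

theorem onesym : ∃ C : ℝ, 0 < C ∧ ∀ n : ℕ, 1 ≤ n →
    ∀ ρ : Ed n → ℝ, W586.SK.Sy ρ → ∀ μ : Measure (Ed n),
    μ = volume.withDensity (fun x => ENNReal.ofReal (ρ x)) → IsProbabilityMeasure μ →
    ∀ s : ℝ, 0 < s → (∀ i, ∫⁻ x, ENNReal.ofReal (x i ^ 2) ∂μ ≤ ENNReal.ofReal s) →
    ∀ f : Ed n → ℝ, ContDiff ℝ 1 f → MemLp f 2 μ →
    ENNReal.ofReal (ProbabilityTheory.variance f μ) ≤
      ENNReal.ofReal (C * s) * ∫⁻ x, ENNReal.ofReal (‖fderiv ℝ f x‖ ^ 2) ∂μ := by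
  have hflow : W586.SK.S_FLOW := W924.SK.Flow.flow W724.SK.trans W280.SK.zzsy W876.SK.ibp W193.SK.lim
    W923.SKF.field
  have hhardy : W586.SK.S_HARDY := W50.SK.hardy hflow W923.SKF.field W364.SK.half W154.SK.cut
  obtain ⟨C, hC, hcore⟩ := W586.SK.core hhardy W586.SKEven.even W608.SK.par W632.SK.low W712.SK.up
    W58.SK.tail W108.SK.bas
  refine ⟨C, hC, ?_⟩
  intro n hn ρ hρ μ hμ hprob s hs hmom f hf hfL
  subst hμ
  have h1 := W348.SK.main W108.SK.bas C hC hcore ρ hn hρ hprob.measure_univ s hs hmom f hf hfL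
  rw [ProbabilityTheory.variance_eq_integral hfL.aestronglyMeasurable.aemeasurable]
  exact h1

/-- 1-symmetric log-concave weights satisfy the affine invariant Poincaré inequality -/
theorem sp_sym : ∃ C : ℝ, 0 < C ∧ ∀ n : ℕ, 1 ≤ n → ∀ w : Ed n → ℝ, Adm w →
    (∀ x y, ∀ t : ℝ, 0 < t → t < 1 → w x ^ (1 - t) * w y ^ t ≤ w ((1 - t) • x + t • y)) →
    (∀ σ : Equiv.Perm (Fin n), ∀ x y : Ed n, (∀ i, |y i| = |x (σ i)|) → w y = w x) →
    SPm C (pm w) := by
  obtain ⟨C, hC, H⟩ := onesym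
  refine ⟨C, hC, fun n hn w hA hlc hsym => ?_⟩
  have hprob := pm_prob hA
  obtain ⟨Z, hZ⟩ : ∃ Z, Z = ∫ x, w x := ⟨_, rfl⟩
  have hZ0 : 0 < Z := by rw [hZ]; exact hA.pos
  obtain ⟨ρ, hρ⟩ : ∃ ρ : Ed n → ℝ, ρ = fun x => Z⁻¹ * w x := ⟨_, rfl⟩
  have hρm : Measurable ρ := by rw [hρ]; exact hA.meas.const_mul _
  have hpm : pm w = volume.withDensity fun x => ENNReal.ofReal (ρ x) := by
    rw [pm_dens hA, lint_w hA, ← hZ, hρ]
    congr 1
    funext x
    rw [ENNReal.ofReal_mul (by positivity), ENNReal.ofReal_inv_of_pos hZ0]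
  have hsy : W586.SK.Sy ρ := by
    refine ⟨fun x => ?_, hρm, fun x y t h0 h1 => ?_, fun σ x y hxy => ?_⟩
    · rw [hρ]
      exact mul_nonneg (by positivity) (hA.nonneg x)
    · rw [hρ]
      simp only
      rw [Real.mul_rpow (by positivity) (hA.nonneg x), Real.mul_rpow (by positivity) (hA.nonneg y)]
      have e1 : Z⁻¹ ^ (1 - t) * Z⁻¹ ^ t = Z⁻¹ := by
        rw [← Real.rpow_add (by positivity), sub_add_cancel, Real.rpow_one]
      calc Z⁻¹ ^ (1 - t) * w x ^ (1 - t) * (Z⁻¹ ^ t * w y ^ t)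
          = (Z⁻¹ ^ (1 - t) * Z⁻¹ ^ t) * (w x ^ (1 - t) * w y ^ t) := by ring
        _ = Z⁻¹ * (w x ^ (1 - t) * w y ^ t) := by rw [e1]
        _ ≤ _ := mul_le_mul_of_nonneg_left (hlc x y t h0 h1) (by positivity)
    · rw [hρ]
      simp only
      rw [hsym σ x y hxy]
  have hflp : ∀ (P : Fin n → Prop) [DecidablePred P] (x : Ed n), ρ (flp P x) = ρ x := fun P _ x =>
    hsy.inv 1 x _ fun j => by
      rw [flp_apply]
      split_ifs
      · rw [abs_neg]; rfl
      · rfl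
  have hprm : ∀ (σ : Equiv.Perm (Fin n)) (x : Ed n), ρ (prm σ x) = ρ x := fun σ x =>
    hsy.inv σ x _ fun k => by rw [prm_apply]
  have hinv : Iso2 (pm w) := by
    rw [hpm]
    exact iso_of_symm
      (fun i => ⟨fun j => j = i, inferInstance, rfl, fun F => inv_dens hρm (flp _) (hflp _) F⟩)
      (fun i j hij => ⟨fun k => k = i, inferInstance, rfl, fun h => hij h.symm,
        fun F => inv_dens hρm (flp _) (hflp _) F⟩)
      (fun i j => ⟨Equiv.swap i j, Equiv.swap_apply_left i j,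
        fun F => inv_dens hρm (prm _) (hprm _) F⟩)
  refine sp_of_inv hinv (pm_mom hA) hC ⟨0, hn⟩ fun s hs hmom f hf hfL => ?_
  refine H n hn ρ hsy (pm w) hpm hprob s hs (fun i => ?_) f hf hfL
  have h1 := hmom (EuclideanSpace.single i 1)
  simp only [EuclideanSpace.inner_single_left, map_one, one_mul, EuclideanSpace.norm_single,
    norm_one, one_pow, mul_one] at h1
  exact h1

end Pool.Agent.X166.DS
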