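import Pool.Agent.X166.DS.SP

/-!
# The affine invariant Poincaré inequality: linear images and products
-/

set_option autoImplicit false
set_option linter.unusedSectionVars false

namespace Pool.Agent.X166.DS

open MeasureTheory Set Filter Topology
open scoped ENNReal

section

variable {E F : Type*} [NormedAddCommGroup E] [NormedSpace ℝ E] [MeasurableSpace E] [BorelSpace E]
  [SecondCountableTopology E]
  [NormedAddCommGroup F] [NormedSpace ℝ F] [MeasurableSpace F] [BorelSpace F]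
  [SecondCountableTopology F]

/-- bounded `C¹` functions with bounded derivative -/
structure Bd (f : E → ℝ) (B L : ℝ) : Prop where
  diff : ContDiff ℝ 1 f
  bdd : ∀ x, |f x| ≤ B
  grad : ∀ x, ‖fderiv ℝ f x‖ ≤ L

/-- probability measures with second moments and the affine invariant Poincaré inequality -/
structure SPm (k : ℝ) (μ : Measure E) : Prop where
  prob : IsProbabilityMeasure μ
  mom : Integrable (fun x => ‖x‖ ^ 2) μ
  ineq : ∀ (f : E → ℝ) (B L : ℝ), Bd f B L → Vr μ f ≤ k * ∫ x, Vr μ (fderiv ℝ f x) ∂μ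

lemma lin1 {μ : Measure E} [IsFiniteMeasure μ] (h : Integrable (fun x : E => ‖x‖ ^ 2) μ) (l : E →L[ℝ] ℝ) :
    Integrable (fun x => l x) μ := by
  refine Integrable.mono' (((integrable_const 1).add h).const_mul ‖l‖)
    l.continuous.measurable.aestronglyMeasurable (Eventually.of_forall fun x => ?_)
  simp only [Pi.add_apply]
  have h1 := l.le_opNorm x
  have h2 : ‖x‖ ≤ 1 + ‖x‖ ^ 2 := by nlinarith [sq_nonneg (‖x‖ - 1)]
  exact h1.trans (mul_le_mul_of_nonneg_left h2 (norm_nonneg _))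

lemma lin2 {μ : Measure E} (h : Integrable (fun x : E => ‖x‖ ^ 2) μ) (l : E →L[ℝ] ℝ) :
    Integrable (fun x => l x ^ 2) μ := by
  refine Integrable.mono' (h.const_mul (‖l‖ ^ 2))
    (l.continuous.measurable.pow_const 2).aestronglyMeasurable (Eventually.of_forall fun x => ?_)
  rw [Real.norm_eq_abs, abs_of_nonneg (sq_nonneg _), ← mul_pow, ← sq_abs]
  exact pow_le_pow_left₀ (abs_nonneg _) (l.le_opNorm x) 2

/-- the variance of a linear functional is a continuous function of the functional -/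
lemma Vr_cont {μ : Measure E} [IsFiniteMeasure μ] (h : Integrable (fun x : E => ‖x‖ ^ 2) μ) :
    Continuous fun l : E →L[ℝ] ℝ => Vr μ fun x => l x := by
  unfold Vr
  refine Continuous.sub ?_ (Continuous.pow ?_ 2)
  · refine continuous_iff_continuousAt.2 fun l0 => ?_
    refine continuousAt_of_dominated (bound := fun x => (‖l0‖ + 1) ^ 2 * ‖x‖ ^ 2)
      (Eventually.of_forall fun l => (l.continuous.measurable.pow_const 2).aestronglyMeasurable) ?_
      (h.const_mul _) ?_
    · have hb : ∀ᶠ l : E →L[ℝ] ℝ in 𝓝 l0, ‖l‖ < ‖l0‖ + 1 :=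
        continuous_norm.continuousAt.eventually_lt continuousAt_const (by linarith)
      filter_upwards [hb] with l hl
      refine Eventually.of_forall fun x => ?_
      rw [Real.norm_eq_abs, abs_of_nonneg (sq_nonneg _), ← mul_pow, ← sq_abs]
      refine pow_le_pow_left₀ (abs_nonneg _) ?_ 2
      exact (l.le_opNorm x).trans (mul_le_mul_of_nonneg_right hl.le (norm_nonneg _))
    · exact Eventually.of_forall fun x => by fun_prop
  · refine continuous_iff_continuousAt.2 fun l0 => ?_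
    refine continuousAt_of_dominated (bound := fun x => (‖l0‖ + 1) * (1 + ‖x‖ ^ 2))
      (Eventually.of_forall fun l => l.continuous.measurable.aestronglyMeasurable) ?_
      (((integrable_const 1).add h).const_mul _) ?_
    · have hb : ∀ᶠ l : E →L[ℝ] ℝ in 𝓝 l0, ‖l‖ < ‖l0‖ + 1 :=
        continuous_norm.continuousAt.eventually_lt continuousAt_const (by linarith)
      filter_upwards [hb] with l hl
      refine Eventually.of_forall fun x => ?_
      have h2 : ‖x‖ ≤ 1 + ‖x‖ ^ 2 := by nlinarith [sq_nonneg (‖x‖ - 1)]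
      exact (l.le_opNorm x).trans (mul_le_mul hl.le h2 (norm_nonneg _) (by positivity))
    · exact Eventually.of_forall fun x => by fun_prop

/-- bound for the variance of a functional -/
lemma Vr_bd {μ : Measure E} [IsProbabilityMeasure μ] (h : Integrable (fun x : E => ‖x‖ ^ 2) μ)
    (l : E →L[ℝ] ℝ) : 0 ≤ Vr μ (fun x => l x) ∧
      Vr μ (fun x => l x) ≤ ‖l‖ ^ 2 * ∫ x, ‖x‖ ^ 2 ∂μ := by
  refine ⟨Vr_nonneg (lin1 h l) (lin2 h l), ?_⟩
  have h1 : ∫ x, l x ^ 2 ∂μ ≤ ∫ x, ‖l‖ ^ 2 * ‖x‖ ^ 2 ∂μ := by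
    refine integral_mono (lin2 h l) (h.const_mul _) fun x => ?_
    rw [← mul_pow, ← sq_abs]
    exact pow_le_pow_left₀ (abs_nonneg _) (l.le_opNorm x) 2
  rw [integral_const_mul] at h1
  unfold Vr
  nlinarith [sq_nonneg (∫ x, l x ∂μ)]

lemma Bd.comp {f : F → ℝ} {B L : ℝ} (h : Bd f B L) (T : E →L[ℝ] F) :
    Bd (fun x => f (T x)) B (L * ‖T‖) ∧
      ∀ x, fderiv ℝ (fun x => f (T x)) x = (fderiv ℝ f (T x)).comp T := by
  have hfd : ∀ x, HasFDerivAt (fun x => f (T x)) ((fderiv ℝ f (T x)).comp T) x := fun x => by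
    have h3 : HasFDerivAt f (fderiv ℝ f (T x)) (T x) :=
      (h.diff.differentiable one_ne_zero _).hasFDerivAt
    exact HasFDerivAt.comp x h3 T.hasFDerivAt
  refine ⟨⟨h.diff.comp T.contDiff, fun x => h.bdd _, fun x => ?_⟩, fun x => (hfd x).fderiv⟩
  rw [(hfd x).fderiv]
  exact (ContinuousLinearMap.opNorm_comp_le _ _).trans
    (mul_le_mul_of_nonneg_right (h.grad _) (norm_nonneg _))

/-- linear images -/
theorem SPm.map {k : ℝ} {μ : Measure E} (h : SPm k μ) (T : E →L[ℝ] F) : SPm k (μ.map T) := by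
  have hp := h.prob
  have hT : Measurable T := T.continuous.measurable
  have hmom : Integrable (fun y : F => ‖y‖ ^ 2) (μ.map T) := by
    have hcn : Continuous fun y : F => ‖y‖ ^ 2 := continuous_norm.pow 2
    rw [integrable_map_measure hcn.measurable.aestronglyMeasurable hT.aemeasurable]
    refine Integrable.mono' (h.mom.const_mul (‖T‖ ^ 2))
      ((continuous_norm.pow 2).comp T.continuous).measurable.aestronglyMeasurable
      (Eventually.of_forall fun x => ?_)
    simp only [Function.comp]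
    rw [Real.norm_eq_abs, abs_of_nonneg (sq_nonneg _), ← mul_pow]
    exact pow_le_pow_left₀ (norm_nonneg _) (T.le_opNorm x) 2
  have hpm : IsProbabilityMeasure (μ.map T) := Measure.isProbabilityMeasure_map hT.aemeasurable
  refine ⟨hpm, hmom, fun f B L hf => ?_⟩
  obtain ⟨h1, h2⟩ := hf.comp T
  rw [Vr_map hT hf.diff.continuous.measurable]
  refine (h.ineq _ _ _ h1).trans (le_of_eq ?_)
  congr 1
  have hc : Continuous fun y : F => Vr (μ.map T) (fderiv ℝ f y) :=
    (Vr_cont hmom).comp (hf.diff.continuous_fderiv one_ne_zero)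
  rw [integral_map hT.aemeasurable hc.measurable.aestronglyMeasurable]
  refine integral_congr_ae (Eventually.of_forall fun x => ?_)
  simp only
  rw [h2, Vr_map hT (fderiv ℝ f (T x)).continuous.measurable]
  rfl

/-- products -/
theorem SPm.prod {k : ℝ} {μ : Measure E} {ν : Measure F} (hμ : SPm k μ) (hν : SPm k ν) :
    SPm k (μ.prod ν) := by
  have hp := hμ.prob
  have hq := hν.prob
  have hmom : Integrable (fun p : E × F => ‖p‖ ^ 2) (μ.prod ν) := by
    have i1 : Integrable (fun p : E × F => ‖p.1‖ ^ 2) (μ.prod ν) := hμ.mom.comp_fst ν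
    have i2 : Integrable (fun p : E × F => ‖p.2‖ ^ 2) (μ.prod ν) := hν.mom.comp_snd μ
    refine Integrable.mono' (i1.add i2) (continuous_norm.pow 2).measurable.aestronglyMeasurable
      (Eventually.of_forall fun p => ?_)
    simp only [Pi.add_apply]
    rw [Real.norm_eq_abs, abs_of_nonneg (sq_nonneg _)]
    rcases le_total ‖p.1‖ ‖p.2‖ with h | h
    · rw [Prod.norm_def, max_eq_right h]
      nlinarith [sq_nonneg ‖p.1‖]
    · rw [Prod.norm_def, max_eq_left h]
      nlinarith [sq_nonneg ‖p.2‖]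
  refine ⟨inferInstance, hmom, fun f B L hf => ?_⟩
  obtain ⟨J1, hJ1⟩ : ∃ J1 : E →L[ℝ] E × F, J1 = ContinuousLinearMap.inl ℝ E F := ⟨_, rfl⟩
  obtain ⟨J2, hJ2⟩ : ∃ J2 : F →L[ℝ] E × F, J2 = ContinuousLinearMap.inr ℝ E F := ⟨_, rfl⟩
  -- the partial functions
  have hd : ∀ p, HasFDerivAt f (fderiv ℝ f p) p := fun p =>
    (hf.diff.differentiable one_ne_zero _).hasFDerivAt
  have b2 : ∀ x, Bd (fun y => f (x, y)) B (L * ‖J2‖) ∧
      ∀ y, fderiv ℝ (fun y => f (x, y)) y = (fderiv ℝ f (x, y)).comp J2 := by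
    intro x
    have hx : ∀ y, HasFDerivAt (fun y => f (x, y)) ((fderiv ℝ f (x, y)).comp J2) y := fun y => by
      rw [hJ2]
      exact HasFDerivAt.comp y (hd (x, y)) (hasFDerivAt_prodMk_right x y)
    refine ⟨⟨hf.diff.comp (contDiff_const.prodMk contDiff_id), fun y => hf.bdd _, fun y => ?_⟩,
      fun y => (hx y).fderiv⟩
    rw [(hx y).fderiv]
    exact (ContinuousLinearMap.opNorm_comp_le _ _).trans
      (mul_le_mul_of_nonneg_right (hf.grad _) (norm_nonneg _))
  have b1 : ∀ y, Bd (fun x => f (x, y)) B (L * ‖J1‖) ∧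
      ∀ x, fderiv ℝ (fun x => f (x, y)) x = (fderiv ℝ f (x, y)).comp J1 := by
    intro y
    have hx : ∀ x, HasFDerivAt (fun x => f (x, y)) ((fderiv ℝ f (x, y)).comp J1) x := fun x => by
      rw [hJ1]
      exact HasFDerivAt.comp x (hd (x, y)) (hasFDerivAt_prodMk_left x y)
    refine ⟨⟨hf.diff.comp (contDiff_id.prodMk contDiff_const), fun y => hf.bdd _, fun y => ?_⟩,
      fun y => (hx y).fderiv⟩
    rw [(hx y).fderiv]
    exact (ContinuousLinearMap.opNorm_comp_le _ _).trans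
      (mul_le_mul_of_nonneg_right (hf.grad _) (norm_nonneg _))
  have hfc := hf.diff.continuous_fderiv one_ne_zero
  -- the two quadratic forms
  obtain ⟨Q1, hQ1⟩ : ∃ Q1 : E × F → ℝ, Q1 = fun p => Vr μ fun u => (fderiv ℝ f p) (J1 u) := ⟨_, rfl⟩
  obtain ⟨Q2, hQ2⟩ : ∃ Q2 : E × F → ℝ, Q2 = fun p => Vr ν fun u => (fderiv ℝ f p) (J2 u) := ⟨_, rfl⟩
  have cQ1 : Continuous Q1 := by
    rw [hQ1]
    have hcc : Continuous fun p => (fderiv ℝ f p).comp J1 := by fun_prop
    exact (Vr_cont hμ.mom).comp hcc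
  have cQ2 : Continuous Q2 := by
    rw [hQ2]
    have hcc : Continuous fun p => (fderiv ℝ f p).comp J2 := by fun_prop
    exact (Vr_cont hν.mom).comp hcc
  have hL : 0 ≤ L := (norm_nonneg _).trans (hf.grad 0)
  have bQ1 : ∀ p, |Q1 p| ≤ (L * ‖J1‖) ^ 2 * ∫ x, ‖x‖ ^ 2 ∂μ := fun p => by
    have h1 := Vr_bd hμ.mom ((fderiv ℝ f p).comp J1)
    have e1 : Q1 p = Vr μ fun u => ((fderiv ℝ f p).comp J1) u := by rw [hQ1]; rfl
    rw [e1, abs_of_nonneg h1.1]
    refine h1.2.trans (mul_le_mul_of_nonneg_right ?_ (integral_nonneg fun x => sq_nonneg _))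
    refine pow_le_pow_left₀ (norm_nonneg _) ?_ 2
    exact (ContinuousLinearMap.opNorm_comp_le _ _).trans
      (mul_le_mul_of_nonneg_right (hf.grad _) (norm_nonneg _))
  have bQ2 : ∀ p, |Q2 p| ≤ (L * ‖J2‖) ^ 2 * ∫ x, ‖x‖ ^ 2 ∂ν := fun p => by
    have h1 := Vr_bd hν.mom ((fderiv ℝ f p).comp J2)
    have e1 : Q2 p = Vr ν fun u => ((fderiv ℝ f p).comp J2) u := by rw [hQ2]; rfl
    rw [e1, abs_of_nonneg h1.1]
    refine h1.2.trans (mul_le_mul_of_nonneg_right ?_ (integral_nonneg fun x => sq_nonneg _))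
    refine pow_le_pow_left₀ (norm_nonneg _) ?_ 2
    exact (ContinuousLinearMap.opNorm_comp_le _ _).trans
      (mul_le_mul_of_nonneg_right (hf.grad _) (norm_nonneg _))
  have iQ1 : Integrable Q1 (μ.prod ν) := int_of_bdd cQ1.measurable bQ1
  have iQ2 : Integrable Q2 (μ.prod ν) := int_of_bdd cQ2.measurable bQ2
  -- the inequality
  have e0 := efron (μ := μ) (ν := ν) hf.diff.continuous.measurable hf.bdd
  have e1 : ∀ x, Vr ν (fun y => f (x, y)) ≤ k * ∫ y, Q2 (x, y) ∂ν := by
    intro x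
    obtain ⟨h1, h2⟩ := b2 x
    refine (hν.ineq _ _ _ h1).trans (le_of_eq ?_)
    congr 1
    refine integral_congr_ae (Eventually.of_forall fun y => ?_)
    simp only
    rw [h2, hQ2]
    rfl
  have e2 : ∀ y, Vr μ (fun x => f (x, y)) ≤ k * ∫ x, Q1 (x, y) ∂μ := by
    intro y
    obtain ⟨h1, h2⟩ := b1 y
    refine (hμ.ineq _ _ _ h1).trans (le_of_eq ?_)
    congr 1
    refine integral_congr_ae (Eventually.of_forall fun x => ?_)
    simp only
    rw [h2, hQ1]
    rfl
  have sqb : ∀ {t : ℝ}, |t| ≤ B → |t ^ 2| ≤ B ^ 2 := fun {t} h => by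
    rw [abs_pow]; exact pow_le_pow_left₀ (abs_nonneg _) h 2
  have fm := hf.diff.continuous.measurable
  have i0 : Integrable f (μ.prod ν) := int_of_bdd fm hf.bdd
  have i2 : Integrable (fun p => f p ^ 2) (μ.prod ν) := int_of_bdd (fm.pow_const 2) fun p => sqb (hf.bdd p)
  -- integrability of the partial variances
  have iV2 : Integrable (fun x => Vr ν fun y => f (x, y)) μ := by
    unfold Vr
    refine i2.integral_prod_left.sub ?_
    have hm : Measurable fun x => ∫ y, f (x, y) ∂ν := by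
      have : StronglyMeasurable fun x => ∫ y, f (x, y) ∂ν := fm.stronglyMeasurable.integral_prod_right'
      exact this.measurable
    refine int_of_bdd (B := B ^ 2) (hm.pow_const 2) fun x => sqb ?_
    rw [← Real.norm_eq_abs]
    refine (norm_integral_le_of_norm_le_const (C := B) (Eventually.of_forall fun y => ?_)).trans ?_
    · rw [Real.norm_eq_abs]; exact hf.bdd _
    · simp
  have iV1 : Integrable (fun y => Vr μ fun x => f (x, y)) ν := by
    unfold Vr
    refine i2.integral_prod_right.sub ?_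
    have hm : Measurable fun y => ∫ x, f (x, y) ∂μ := by
      have : StronglyMeasurable fun y => ∫ x, f (x, y) ∂μ :=
        (fm.comp measurable_swap).stronglyMeasurable.integral_prod_right'
      exact this.measurable
    refine int_of_bdd (B := B ^ 2) (hm.pow_const 2) fun x => sqb ?_
    rw [← Real.norm_eq_abs]
    refine (norm_integral_le_of_norm_le_const (C := B) (Eventually.of_forall fun y => ?_)).trans ?_
    · rw [Real.norm_eq_abs]; exact hf.bdd _
    · simp
  have f2 : ∫ x, Vr ν (fun y => f (x, y)) ∂μ ≤ k * ∫ p, Q2 p ∂(μ.prod ν) := by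
    rw [integral_prod _ iQ2, ← integral_const_mul]
    exact integral_mono iV2 (iQ2.integral_prod_left.const_mul k) e1
  have f1 : ∫ y, Vr μ (fun x => f (x, y)) ∂ν ≤ k * ∫ p, Q1 p ∂(μ.prod ν) := by
    rw [integral_prod_symm _ iQ1, ← integral_const_mul]
    exact integral_mono iV1 (iQ1.integral_prod_right.const_mul k) e2
  -- the variance of a functional of the pair
  have hsum : ∀ p, Vr (μ.prod ν) (fderiv ℝ f p) = Q2 p + Q1 p := by
    intro p
    obtain ⟨l, hl⟩ : ∃ l, l = fderiv ℝ f p := ⟨_, rfl⟩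
    obtain ⟨l1, hl1⟩ : ∃ l1 : E →L[ℝ] ℝ, l1 = l.comp J1 := ⟨_, rfl⟩
    obtain ⟨l2, hl2⟩ : ∃ l2 : F →L[ℝ] ℝ, l2 = l.comp J2 := ⟨_, rfl⟩
    have hs : ∀ q : E × F, l q = l1 q.1 + l2 q.2 := by
      intro q
      rw [hl1, hl2, hJ1, hJ2]
      simp only [ContinuousLinearMap.comp_apply, ContinuousLinearMap.inl_apply,
        ContinuousLinearMap.inr_apply]
      rw [← map_add]
      congr 1
      ext <;> simp
    have q1 : Q1 p = Vr μ l1 := by rw [hQ1, hl1, hl]; rfl
    have q2 : Q2 p = Vr ν l2 := by rw [hQ2, hl2, hl]; rfl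
    rw [← hl, q1, q2]
    have a1 : Integrable (fun q : E × F => l1 q.1) (μ.prod ν) := (lin1 hμ.mom l1).comp_fst ν
    have a2 : Integrable (fun q : E × F => l2 q.2) (μ.prod ν) := (lin1 hν.mom l2).comp_snd μ
    have a3 : Integrable (fun q : E × F => l1 q.1 ^ 2) (μ.prod ν) := (lin2 hμ.mom l1).comp_fst ν
    have a4 : Integrable (fun q : E × F => l2 q.2 ^ 2) (μ.prod ν) := (lin2 hν.mom l2).comp_snd μ
    have a5 : Integrable (fun q : E × F => l1 q.1 * l2 q.2) (μ.prod ν) :=
      (lin1 hμ.mom l1).mul_prod (lin1 hν.mom l2)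
    have c1 : ∫ q, l q ∂(μ.prod ν) = ∫ x, l1 x ∂μ + ∫ y, l2 y ∂ν := by
      simp only [hs]
      rw [integral_add a1 a2]
      have := integral_fun_fst (μ := μ) (ν := ν) fun x => l1 x
      have h3 := integral_fun_snd (μ := μ) (ν := ν) fun x => l2 x
      simp only [probReal_univ, one_smul] at this h3
      rw [this, h3]
    have c2 : ∫ q, l q ^ 2 ∂(μ.prod ν) = ∫ x, l1 x ^ 2 ∂μ + ∫ y, l2 y ^ 2 ∂ν +
        2 * ((∫ x, l1 x ∂μ) * ∫ y, l2 y ∂ν) := by
      have ee : (fun q : E × F => l q ^ 2) = fun q => (l1 q.1 ^ 2 + l2 q.2 ^ 2) +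
          2 * (l1 q.1 * l2 q.2) := by
        funext q
        rw [hs]
        ring
      have a34 : Integrable (fun q : E × F => l1 q.1 ^ 2 + l2 q.2 ^ 2) (μ.prod ν) := a3.add a4
      rw [ee, integral_add a34 (a5.const_mul 2), integral_const_mul,
        integral_prod_mul (fun x => l1 x) (fun y => l2 y)]
      have h4 : ∫ q : E × F, (l1 q.1 ^ 2 + l2 q.2 ^ 2) ∂(μ.prod ν) =
          ∫ x, l1 x ^ 2 ∂μ + ∫ y, l2 y ^ 2 ∂ν := by
        rw [integral_add a3 a4]
        have := integral_fun_fst (μ := μ) (ν := ν) fun x => l1 x ^ 2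
        have h3 := integral_fun_snd (μ := μ) (ν := ν) fun x => l2 x ^ 2
        simp only [probReal_univ, one_smul] at this h3
        rw [this, h3]
      exact congrArg (· + 2 * ((∫ x, l1 x ∂μ) * ∫ y, l2 y ∂ν)) h4
    unfold Vr
    rw [c1, c2]
    ring
  calc Vr (μ.prod ν) f ≤ _ := e0
    _ ≤ k * ∫ p, Q2 p ∂(μ.prod ν) + k * ∫ p, Q1 p ∂(μ.prod ν) := add_le_add f2 f1
    _ = k * ∫ p, Vr (μ.prod ν) (fderiv ℝ f p) ∂(μ.prod ν) := by
      simp only [hsum]
      rw [integral_add iQ2 iQ1]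
      ring

end

end Pool.Agent.X166.DS
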