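import Mathlib

/-!
# The affine invariant Poincaré inequality and products
-/

set_option autoImplicit false

namespace Pool.Agent.X166.DS

open MeasureTheory Set Filter Topology
open scoped ENNReal

section Vr

variable {α β : Type*} [MeasurableSpace α] [MeasurableSpace β]

/-- the variance -/
noncomputable def Vr (μ : Measure α) (g : α → ℝ) : ℝ := ∫ x, g x ^ 2 ∂μ - (∫ x, g x ∂μ) ^ 2

lemma int_of_bdd {μ : Measure α} [IsFiniteMeasure μ] {g : α → ℝ} (hg : Measurable g) {B : ℝ}
    (hb : ∀ x, |g x| ≤ B) : Integrable g μ :=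
  Integrable.mono' (integrable_const B) hg.aestronglyMeasurable
    (Eventually.of_forall fun x => by simpa [Real.norm_eq_abs] using hb x)

lemma Vr_eq {μ : Measure α} [IsProbabilityMeasure μ] {g : α → ℝ} (h1 : Integrable g μ)
    (h2 : Integrable (fun x => g x ^ 2) μ) : Vr μ g = ∫ x, (g x - ∫ y, g y ∂μ) ^ 2 ∂μ := by
  obtain ⟨m, hm⟩ : ∃ m, m = ∫ y, g y ∂μ := ⟨_, rfl⟩
  have e : (fun x => (g x - m) ^ 2) = fun x => (g x ^ 2 + -(2 * m) * g x) + m ^ 2 := by
    funext x; ring
  unfold Vr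
  have j1 : Integrable (fun x => g x ^ 2 + -(2 * m) * g x) μ := h2.add (h1.const_mul _)
  rw [← hm, e, integral_add j1 (integrable_const _), integral_add h2 (h1.const_mul _),
    integral_const_mul, ← hm]
  simp
  ring

lemma Vr_nonneg {μ : Measure α} [IsProbabilityMeasure μ] {g : α → ℝ} (h1 : Integrable g μ)
    (h2 : Integrable (fun x => g x ^ 2) μ) : 0 ≤ Vr μ g := by
  rw [Vr_eq h1 h2]
  exact integral_nonneg fun x => sq_nonneg _

lemma Vr_map {μ : Measure α} {T : α → β} (hT : Measurable T) {g : β → ℝ} (hg : Measurable g) :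
    Vr (μ.map T) g = Vr μ (fun x => g (T x)) := by
  unfold Vr
  rw [integral_map hT.aemeasurable hg.aestronglyMeasurable,
    integral_map hT.aemeasurable (hg.pow_const 2).aestronglyMeasurable]

/-- Efron-Stein for two variables -/
lemma efron {μ : Measure α} {ν : Measure β} [IsProbabilityMeasure μ] [IsProbabilityMeasure ν]
    {g : α × β → ℝ} (hg : Measurable g) {B : ℝ} (hb : ∀ x, |g x| ≤ B) :
    Vr (μ.prod ν) g ≤ ∫ x, Vr ν (fun y => g (x, y)) ∂μ + ∫ y, Vr μ (fun x => g (x, y)) ∂ν := by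
  have hB : 0 ≤ B := by
    have : Nonempty (α × β) := by
      have h := (inferInstance : IsProbabilityMeasure (μ.prod ν))
      by_contra hcon
      rw [not_nonempty_iff] at hcon
      have h1 := h.measure_univ
      rw [Set.univ_eq_empty_iff.2 hcon, measure_empty] at h1
      exact zero_ne_one h1
    exact (abs_nonneg _).trans (hb this.some)
  -- the partial means
  obtain ⟨A, hA⟩ : ∃ A : β → ℝ, A = fun y => ∫ x, g (x, y) ∂μ := ⟨_, rfl⟩
  obtain ⟨C, hC⟩ : ∃ C : α → ℝ, C = fun x => ∫ y, g (x, y) ∂ν := ⟨_, rfl⟩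
  obtain ⟨m, hm⟩ : ∃ m : ℝ, m = ∫ p, g p ∂(μ.prod ν) := ⟨_, rfl⟩
  have hAm : Measurable A := by
    rw [hA]
    have : StronglyMeasurable fun y => ∫ x, g (x, y) ∂μ :=
      (hg.comp measurable_swap).stronglyMeasurable.integral_prod_right'
    exact this.measurable
  have hCm : Measurable C := by
    rw [hC]
    have : StronglyMeasurable fun x => ∫ y, g (x, y) ∂ν := hg.stronglyMeasurable.integral_prod_right'
    exact this.measurable
  have hAb : ∀ y, |A y| ≤ B := fun y => by
    rw [hA, ← Real.norm_eq_abs]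
    refine (norm_integral_le_of_norm_le_const (C := B) (Eventually.of_forall fun x => ?_)).trans ?_
    · rw [Real.norm_eq_abs]; exact hb _
    · simp
  have hCb : ∀ x, |C x| ≤ B := fun x => by
    rw [hC, ← Real.norm_eq_abs]
    refine (norm_integral_le_of_norm_le_const (C := B) (Eventually.of_forall fun y => ?_)).trans ?_
    · rw [Real.norm_eq_abs]; exact hb _
    · simp
  have sqb : ∀ {t : ℝ}, |t| ≤ B → |t ^ 2| ≤ B ^ 2 := fun {t} h => by
    rw [abs_pow]; exact pow_le_pow_left₀ (abs_nonneg _) h 2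
  have ml : ∀ {s t : ℝ}, |s| ≤ B → |t| ≤ B → |s * t| ≤ B * B := fun {s t} h1 h2 => by
    rw [abs_mul]; exact mul_le_mul h1 h2 (abs_nonneg _) hB
  have ig : Integrable g (μ.prod ν) := int_of_bdd hg hb
  have ig2 : Integrable (fun p => g p ^ 2) (μ.prod ν) := int_of_bdd (hg.pow_const 2) fun p => sqb (hb p)
  have hA1 : Measurable fun p : α × β => A p.2 := hAm.comp measurable_snd
  have hC1 : Measurable fun p : α × β => C p.1 := hCm.comp measurable_fst
  have iA : Integrable (fun p : α × β => A p.2) (μ.prod ν) := int_of_bdd hA1 fun p => hAb p.2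
  have iC : Integrable (fun p : α × β => C p.1) (μ.prod ν) := int_of_bdd hC1 fun p => hCb p.1
  have iA2 : Integrable (fun p : α × β => A p.2 ^ 2) (μ.prod ν) :=
    int_of_bdd (hA1.pow_const 2) fun p => sqb (hAb p.2)
  have iC2 : Integrable (fun p : α × β => C p.1 ^ 2) (μ.prod ν) :=
    int_of_bdd (hC1.pow_const 2) fun p => sqb (hCb p.1)
  have igA : Integrable (fun p : α × β => g p * A p.2) (μ.prod ν) :=
    int_of_bdd (hg.mul hA1) fun p => ml (hb p) (hAb p.2)
  have igC : Integrable (fun p : α × β => g p * C p.1) (μ.prod ν) :=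
    int_of_bdd (hg.mul hC1) fun p => ml (hb p) (hCb p.1)
  have iAC : Integrable (fun p : α × β => A p.2 * C p.1) (μ.prod ν) :=
    int_of_bdd (hA1.mul hC1) fun p => ml (hAb p.2) (hCb p.1)
  -- the integrals
  have eA : ∀ F : β → ℝ, ∫ p : α × β, F p.2 ∂(μ.prod ν) = ∫ y, F y ∂ν := by
    intro F
    have := integral_fun_snd (μ := μ) (ν := ν) F
    simpa using this
  have eC : ∀ F : α → ℝ, ∫ p : α × β, F p.1 ∂(μ.prod ν) = ∫ x, F x ∂μ := by
    intro F
    have := integral_fun_fst (μ := μ) (ν := ν) F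
    simpa using this
  have e1 : ∫ y, A y ∂ν = m := by
    rw [hm, integral_prod_symm g ig, hA]
  have e2 : ∫ x, C x ∂μ = m := by
    rw [hm, integral_prod g ig, hC]
  have e3 : ∫ p : α × β, g p * A p.2 ∂(μ.prod ν) = ∫ y, A y ^ 2 ∂ν := by
    rw [integral_prod_symm _ igA]
    refine integral_congr_ae (Eventually.of_forall fun y => ?_)
    simp only
    rw [integral_mul_const, sq, hA]
  have e4 : ∫ p : α × β, g p * C p.1 ∂(μ.prod ν) = ∫ x, C x ^ 2 ∂μ := by
    rw [integral_prod _ igC]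
    refine integral_congr_ae (Eventually.of_forall fun x => ?_)
    simp only
    rw [integral_mul_const, sq, hC]
  have e5 : ∫ p : α × β, A p.2 * C p.1 ∂(μ.prod ν) = m ^ 2 := by
    rw [integral_prod _ iAC]
    simp only
    have : ∀ x, ∫ y, A y * C x ∂ν = m * C x := fun x => by rw [integral_mul_const, e1]
    simp only [this]
    rw [integral_const_mul, e2]
    ring
  -- the square
  have key : 0 ≤ ∫ p, (g p - A p.2 - C p.1 + m) ^ 2 ∂(μ.prod ν) := integral_nonneg fun _ => sq_nonneg _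
  have ek : (fun p : α × β => (g p - A p.2 - C p.1 + m) ^ 2) = fun p =>
      ((((((((g p ^ 2 + A p.2 ^ 2) + C p.1 ^ 2) + (-2) * (g p * A p.2)) + (-2) * (g p * C p.1)) +
        2 * (A p.2 * C p.1)) + (2 * m) * g p) + (-(2 * m)) * A p.2) + (-(2 * m)) * C p.1) + m ^ 2 := by
    funext p; ring
  rw [ek] at key
  have j1 := ig2.add iA2
  have j2 := j1.add iC2
  have j3 := j2.add (igA.const_mul (-2))
  have j4 := j3.add (igC.const_mul (-2))
  have j5 := j4.add (iAC.const_mul 2)
  have j6 := j5.add (ig.const_mul (2 * m))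
  have j7 := j6.add (iA.const_mul (-(2 * m)))
  have j8 := j7.add (iC.const_mul (-(2 * m)))
  simp only [Pi.add_def] at j1 j2 j3 j4 j5 j6 j7 j8
  rw [integral_add j8 (integrable_const _), integral_add j7 (iC.const_mul _),
    integral_add j6 (iA.const_mul _), integral_add j5 (ig.const_mul _),
    integral_add j4 (iAC.const_mul _), integral_add j3 (igC.const_mul _),
    integral_add j2 (igA.const_mul _), integral_add j1 iC2, integral_add ig2 iA2] at key
  simp only [integral_const_mul] at key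
  rw [e3, e4, e5, ← hm, eA (fun y => A y ^ 2), eC (fun x => C x ^ 2), eA A, eC C, e1, e2] at key
  simp only [integral_const, probReal_univ, one_smul] at key
  -- the right hand side
  have hVν : ∀ x, Vr ν (fun y => g (x, y)) = (∫ y, g (x, y) ^ 2 ∂ν) - C x ^ 2 := fun x => by
    unfold Vr; rw [hC]
  have hVμ : ∀ y, Vr μ (fun x => g (x, y)) = (∫ x, g (x, y) ^ 2 ∂μ) - A y ^ 2 := fun y => by
    unfold Vr; rw [hA]
  have r1 : ∫ x, Vr ν (fun y => g (x, y)) ∂μ = ∫ p, g p ^ 2 ∂(μ.prod ν) - ∫ x, C x ^ 2 ∂μ := by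
    simp only [hVν]
    rw [integral_sub ig2.integral_prod_left (int_of_bdd (hCm.pow_const 2) fun x => sqb (hCb x)),
      ← integral_prod _ ig2]
  have r2 : ∫ y, Vr μ (fun x => g (x, y)) ∂ν = ∫ p, g p ^ 2 ∂(μ.prod ν) - ∫ y, A y ^ 2 ∂ν := by
    simp only [hVμ]
    rw [integral_sub ig2.integral_prod_right (int_of_bdd (hAm.pow_const 2) fun x => sqb (hAb x)),
      ← integral_prod_symm _ ig2]
  rw [r1, r2]
  have hV : Vr (μ.prod ν) g = ∫ p, g p ^ 2 ∂(μ.prod ν) - m ^ 2 := by unfold Vr; rw [hm]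
  rw [hV]
  linarith

end Vr

end Pool.Agent.X166.DS
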