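import Pool.Agent.X166.DS.Fam

/-!
# Measures with a covariance matrix which is a multiple of the identity
-/

set_option autoImplicit false
set_option linter.unusedSectionVars false

namespace Pool.Agent.X166.DS

open MeasureTheory Set Filter Topology
open scoped ENNReal InnerProductSpace

variable {ι : Type} [Fintype ι] [DecidableEq ι]

/-- flipping the signs of a set of coordinates -/
noncomputable def flp (P : ι → Prop) [DecidablePred P] : EuclideanSpace ℝ ι ≃ₗᵢ[ℝ] EuclideanSpace ℝ ι :=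
  LinearIsometryEquiv.piLpCongrRight 2 fun j =>
    if P j then LinearIsometryEquiv.neg ℝ else LinearIsometryEquiv.refl ℝ ℝ

lemma flp_apply (P : ι → Prop) [DecidablePred P] (j : ι) (x : EuclideanSpace ℝ ι) :
    flp P x j = if P j then -x j else x j := by
  unfold flp
  rw [LinearIsometryEquiv.piLpCongrRight_apply]
  split_ifs with h <;> simp [h]

/-- permuting the coordinates -/
noncomputable def prm (σ : Equiv.Perm ι) : EuclideanSpace ℝ ι ≃ₗᵢ[ℝ] EuclideanSpace ℝ ι :=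
  LinearIsometryEquiv.piLpCongrLeft 2 ℝ ℝ σ.symm

lemma prm_apply (σ : Equiv.Perm ι) (k : ι) (x : EuclideanSpace ℝ ι) : prm σ x k = x (σ k) := by
  unfold prm
  rw [LinearIsometryEquiv.piLpCongrLeft_apply]
  simp [Equiv.piCongrLeft'_apply]

lemma inv_dens {ρ : EuclideanSpace ℝ ι → ℝ} (hm : Measurable ρ)
    (σ : EuclideanSpace ℝ ι ≃ₗᵢ[ℝ] EuclideanSpace ℝ ι)
    (hσ : ∀ x, ρ (σ x) = ρ x) (F : EuclideanSpace ℝ ι → ℝ) :
    ∫ x, F (σ x) ∂(volume.withDensity fun x => ENNReal.ofReal (ρ x)) =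
      ∫ x, F x ∂(volume.withDensity fun x => ENNReal.ofReal (ρ x)) := by
  have hm' : Measurable fun x => ENNReal.ofReal (ρ x) := ENNReal.measurable_ofReal.comp hm
  rw [integral_withDensity_eq_integral_toReal_smul hm' (Eventually.of_forall fun x => ENNReal.ofReal_lt_top),
    integral_withDensity_eq_integral_toReal_smul hm' (Eventually.of_forall fun x => ENNReal.ofReal_lt_top)]
  have h1 := (σ.measurePreserving).integral_comp σ.toHomeomorph.measurableEmbedding
    (fun x => (ENNReal.ofReal (ρ x)).toReal • F x)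
  rw [← h1]
  refine integral_congr_ae (Eventually.of_forall fun x => ?_)
  simp only
  rw [hσ]

/-- the mean is zero and the covariance matrix is a multiple of the identity -/
structure Iso2 (μ : Measure (EuclideanSpace ℝ ι)) : Prop where
  mean : ∀ i, ∫ x : EuclideanSpace ℝ ι, x i ∂μ = 0
  cross : ∀ i j, i ≠ j → ∫ x : EuclideanSpace ℝ ι, x i * x j ∂μ = 0
  diag : ∀ i j, ∫ x : EuclideanSpace ℝ ι, x i ^ 2 ∂μ = ∫ x : EuclideanSpace ℝ ι, x j ^ 2 ∂μ

/-- the properties from symmetries: each coordinate is in a set `P` such that flipping the signs in `P`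
preserves the measure, for two coordinates such a set contains exactly one of them, and any two
coordinates are exchanged by some symmetry -/
lemma iso_of_symm {μ : Measure (EuclideanSpace ℝ ι)}
    (h1 : ∀ i, ∃ (P : ι → Prop) (_ : DecidablePred P), P i ∧
      ∀ F : EuclideanSpace ℝ ι → ℝ, ∫ x, F (flp P x) ∂μ = ∫ x, F x ∂μ)
    (h2 : ∀ i j, i ≠ j → ∃ (P : ι → Prop) (_ : DecidablePred P), P i ∧ ¬ P j ∧
      ∀ F : EuclideanSpace ℝ ι → ℝ, ∫ x, F (flp P x) ∂μ = ∫ x, F x ∂μ)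
    (h3 : ∀ i j, ∃ σ : Equiv.Perm ι, σ i = j ∧
      ∀ F : EuclideanSpace ℝ ι → ℝ, ∫ x, F (prm σ x) ∂μ = ∫ x, F x ∂μ) : Iso2 μ := by
  refine ⟨fun i => ?_, fun i j hij => ?_, fun i j => ?_⟩
  · obtain ⟨P, hP, hi, H⟩ := h1 i
    have h := H fun x => x i
    simp only [flp_apply, if_pos hi, integral_neg] at h
    linarith
  · obtain ⟨P, hP, hi, hj, H⟩ := h2 i j hij
    have h := H fun x => x i * x j
    simp only [flp_apply, if_pos hi, if_neg hj, neg_mul, integral_neg] at h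
    linarith
  · obtain ⟨σ, hσ, H⟩ := h3 i j
    have h := H fun x => x i ^ 2
    simp only [prm_apply, hσ] at h
    exact h.symm

lemma coord2 {μ : Measure (EuclideanSpace ℝ ι)}
    (hmom : Integrable (fun x : EuclideanSpace ℝ ι => ‖x‖ ^ 2) μ) (i j : ι) :
    Integrable (fun x : EuclideanSpace ℝ ι => x i * x j) μ := by
  have hc : ∀ i : ι, Measurable fun x : EuclideanSpace ℝ ι => x i := fun i =>
    (EuclideanSpace.proj (𝕜 := ℝ) i : EuclideanSpace ℝ ι →L[ℝ] ℝ).continuous.measurable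
  refine Integrable.mono' hmom ((hc i).mul (hc j)).aestronglyMeasurable
    (Eventually.of_forall fun x => ?_)
  have hb : ∀ i : ι, |x i| ≤ ‖x‖ := fun i => by
    rw [← Real.norm_eq_abs]; exact PiLp.norm_apply_le x i
  rw [Real.norm_eq_abs, abs_mul, sq]
  exact mul_le_mul (hb i) (hb j) (abs_nonneg _) (norm_nonneg _)

lemma lin_coord (l : EuclideanSpace ℝ ι →L[ℝ] ℝ) (x : EuclideanSpace ℝ ι) :
    l x = ∑ i, l (EuclideanSpace.single i 1) * x i := by
  have h1 : x = ∑ i, x i • EuclideanSpace.single i (1:ℝ) := by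
    ext j
    simp [Finset.sum_apply, Pi.single_apply]
  conv_lhs => rw [h1]
  rw [map_sum]
  refine Finset.sum_congr rfl fun i _ => ?_
  rw [map_smul, smul_eq_mul, mul_comm]

/-- second moments of linear functionals -/
lemma Iso2.sec {μ : Measure (EuclideanSpace ℝ ι)} (h : Iso2 μ)
    (hmom : Integrable (fun x : EuclideanSpace ℝ ι => ‖x‖ ^ 2) μ) (i0 : ι)
    (l : EuclideanSpace ℝ ι →L[ℝ] ℝ) : ∫ x, l x ^ 2 ∂μ =
      (∑ i, l (EuclideanSpace.single i 1) ^ 2) * ∫ x : EuclideanSpace ℝ ι, x i0 ^ 2 ∂μ := by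
  obtain ⟨g, hg⟩ : ∃ g : ι → ℝ, g = fun i => l (EuclideanSpace.single i 1) := ⟨_, rfl⟩
  have hg' : ∀ i, l (EuclideanSpace.single i 1) = g i := fun i => by rw [hg]
  have hl : ∀ x : EuclideanSpace ℝ ι, l x = ∑ i, g i * x i := fun x => by
    rw [lin_coord l x]
    simp only [hg']
  simp only [hg']
  have e3 : ∀ x : EuclideanSpace ℝ ι, l x ^ 2 = ∑ i, ∑ j, (g i * g j) * (x i * x j) := by
    intro x
    rw [hl, sq, Finset.sum_mul_sum]
    refine Finset.sum_congr rfl fun i _ => Finset.sum_congr rfl fun j _ => by ring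
  simp only [e3]
  rw [integral_finsetSum _ fun i _ => integrable_finsetSum _ fun j _ => (coord2 hmom i j).const_mul _,
    Finset.sum_mul]
  refine Finset.sum_congr rfl fun i _ => ?_
  rw [integral_finsetSum _ fun j _ => (coord2 hmom i j).const_mul _, Finset.sum_eq_single i]
  · have e5 : ∫ x : EuclideanSpace ℝ ι, x i * x i ∂μ = ∫ x : EuclideanSpace ℝ ι, x i0 ^ 2 ∂μ := by
      rw [← h.diag i i0]
      exact integral_congr_ae (Eventually.of_forall fun x => (sq (x i)).symm)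
    rw [integral_const_mul, e5, ← sq]
  · intro j _ hj
    rw [integral_const_mul, h.cross i j hj.symm, mul_zero]
  · intro hi
    exact absurd (Finset.mem_univ i) hi

/-- the variance of a linear functional -/
lemma Iso2.var {μ : Measure (EuclideanSpace ℝ ι)} [IsProbabilityMeasure μ] (h : Iso2 μ)
    (hmom : Integrable (fun x : EuclideanSpace ℝ ι => ‖x‖ ^ 2) μ) (i0 : ι)
    (l : EuclideanSpace ℝ ι →L[ℝ] ℝ) :
    ‖l‖ ^ 2 * ∫ x : EuclideanSpace ℝ ι, x i0 ^ 2 ∂μ ≤ Vr μ l := by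
  have i1 : ∀ i : ι, Integrable (fun x : EuclideanSpace ℝ ι => x i) μ := fun i =>
    lin1 hmom (EuclideanSpace.proj (𝕜 := ℝ) i : EuclideanSpace ℝ ι →L[ℝ] ℝ)
  have e1 : ∫ x, l x ∂μ = 0 := by
    have e : ∫ x, l x ∂μ = ∫ x : EuclideanSpace ℝ ι, ∑ i, l (EuclideanSpace.single i 1) * x i ∂μ :=
      integral_congr_ae (Eventually.of_forall fun x => lin_coord l x)
    rw [e, integral_finsetSum _ fun i _ => (i1 i).const_mul _]
    refine Finset.sum_eq_zero fun i _ => ?_
    rw [integral_const_mul, h.mean, mul_zero]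
  have e4 : ‖l‖ ^ 2 ≤ ∑ i, l (EuclideanSpace.single i 1) ^ 2 := by
    have h0 : 0 ≤ ∑ i, l (EuclideanSpace.single i 1) ^ 2 := Finset.sum_nonneg fun i _ => sq_nonneg _
    have h1 : ‖l‖ ≤ Real.sqrt (∑ i, l (EuclideanSpace.single i 1) ^ 2) := by
      refine ContinuousLinearMap.opNorm_le_bound _ (Real.sqrt_nonneg _) fun x => ?_
      rw [lin_coord l, Real.norm_eq_abs]
      refine (Real.abs_le_sqrt (Finset.sum_mul_sq_le_sq_mul_sq _ _ _)).trans ?_
      rw [Real.sqrt_mul h0, EuclideanSpace.norm_eq]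
      refine mul_le_mul_of_nonneg_left (le_of_eq ?_) (Real.sqrt_nonneg _)
      congr 1
      exact Finset.sum_congr rfl fun i _ => by rw [Real.norm_eq_abs, sq_abs]
    calc ‖l‖ ^ 2 ≤ Real.sqrt (∑ i, l (EuclideanSpace.single i 1) ^ 2) ^ 2 :=
          pow_le_pow_left₀ (norm_nonneg _) h1 2
      _ = _ := Real.sq_sqrt h0
  unfold Vr
  rw [e1, h.sec hmom i0 l]
  have h5 : 0 ≤ ∫ x : EuclideanSpace ℝ ι, x i0 ^ 2 ∂μ := integral_nonneg fun x => sq_nonneg _
  nlinarith [mul_le_mul_of_nonneg_right e4 h5]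

/-- from the Poincaré inequality to its affine invariant form -/
theorem sp_of_inv {μ : Measure (EuclideanSpace ℝ ι)} [IsProbabilityMeasure μ] (h : Iso2 μ)
    (hmom : Integrable (fun x : EuclideanSpace ℝ ι => ‖x‖ ^ 2) μ) {C : ℝ} (hC : 0 < C) (i0 : ι)
    (hP : ∀ s : ℝ, 0 < s → (∀ θ : EuclideanSpace ℝ ι,
        ∫⁻ x : EuclideanSpace ℝ ι, ENNReal.ofReal (⟪θ, x⟫_ℝ ^ 2) ∂μ ≤ ENNReal.ofReal (s * ‖θ‖ ^ 2)) →
      ∀ f : EuclideanSpace ℝ ι → ℝ, ContDiff ℝ 1 f → MemLp f 2 μ →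
      ENNReal.ofReal (ProbabilityTheory.variance f μ) ≤
        ENNReal.ofReal (C * s) * ∫⁻ x, ENNReal.ofReal (‖fderiv ℝ f x‖ ^ 2) ∂μ) : SPm C μ := by
  refine ⟨inferInstance, hmom, fun f B L hf => ?_⟩
  have fm := hf.diff.continuous.measurable
  have hL : 0 ≤ L := (norm_nonneg _).trans (hf.grad 0)
  have hmem : MemLp f 2 μ := MemLp.of_bound fm.aestronglyMeasurable B
    (Eventually.of_forall fun x => by rw [Real.norm_eq_abs]; exact hf.bdd x)
  have hv : ProbabilityTheory.variance f μ = Vr μ f := by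
    rw [ProbabilityTheory.variance_eq_sub hmem]
    rfl
  have hgc : Continuous fun x => ‖fderiv ℝ f x‖ ^ 2 :=
    ((hf.diff.continuous_fderiv one_ne_zero).norm).pow 2
  have ig : Integrable (fun x => ‖fderiv ℝ f x‖ ^ 2) μ :=
    int_of_bdd (B := L ^ 2) hgc.measurable fun x => by
      rw [abs_of_nonneg (sq_nonneg _)]
      exact pow_le_pow_left₀ (norm_nonneg _) (hf.grad x) 2
  obtain ⟨s0, hs0⟩ : ∃ s0, s0 = ∫ x : EuclideanSpace ℝ ι, x i0 ^ 2 ∂μ := ⟨_, rfl⟩
  have hs0n : 0 ≤ s0 := by rw [hs0]; exact integral_nonneg fun x => sq_nonneg _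
  have key : ∀ s, s0 < s → Vr μ f ≤ C * s * ∫ x, ‖fderiv ℝ f x‖ ^ 2 ∂μ := by
    intro s hs
    have hs' : 0 < s := hs0n.trans_lt hs
    have h1 := hP s hs' (fun θ => by
      obtain ⟨l, hl⟩ : ∃ l : EuclideanSpace ℝ ι →L[ℝ] ℝ, l = innerSL ℝ θ := ⟨_, rfl⟩
      have hlx : ∀ x, ⟪θ, x⟫_ℝ = l x := fun x => by rw [hl]; rfl
      simp only [hlx]
      rw [← ofReal_integral_eq_lintegral_ofReal (lin2 hmom l)
        (Eventually.of_forall fun x => sq_nonneg _), h.sec hmom i0 l, ← hs0]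
      refine ENNReal.ofReal_le_ofReal ?_
      have e6 : ∑ i, l (EuclideanSpace.single i 1) ^ 2 = ‖θ‖ ^ 2 := by
        rw [EuclideanSpace.norm_sq_eq]
        refine Finset.sum_congr rfl fun i _ => ?_
        rw [← hlx, EuclideanSpace.inner_single_right, Real.norm_eq_abs, sq_abs]
        simp
      rw [e6, mul_comm]
      exact mul_le_mul_of_nonneg_right hs.le (sq_nonneg _)) f hf.diff hmem
    rw [hv, ← ofReal_integral_eq_lintegral_ofReal ig (Eventually.of_forall fun x => sq_nonneg _),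
      ← ENNReal.ofReal_mul (by positivity)] at h1
    have h2 : 0 ≤ ∫ x, ‖fderiv ℝ f x‖ ^ 2 ∂μ := integral_nonneg fun x => sq_nonneg _
    exact (ENNReal.ofReal_le_ofReal_iff (by positivity)).1 h1
  have key2 : Vr μ f ≤ C * s0 * ∫ x, ‖fderiv ℝ f x‖ ^ 2 ∂μ := by
    have hI : 0 ≤ ∫ x, ‖fderiv ℝ f x‖ ^ 2 ∂μ := integral_nonneg fun x => sq_nonneg _
    refine le_of_forall_pos_le_add fun ε hε => ?_
    obtain ⟨I, hIe⟩ : ∃ I, I = ∫ x, ‖fderiv ℝ f x‖ ^ 2 ∂μ := ⟨_, rfl⟩
    rw [← hIe] at hI ⊢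
    have h1 := key (s0 + ε / (C * (I + 1))) (by
      have : 0 < ε / (C * (I + 1)) := by positivity
      linarith)
    rw [← hIe] at h1
    refine h1.trans ?_
    have h3 : C * (s0 + ε / (C * (I + 1))) * I = C * s0 * I + ε * (I / (I + 1)) := by
      field_simp
    rw [h3]
    have h4 : I / (I + 1) ≤ 1 := by
      rw [div_le_one (by positivity)]
      linarith
    nlinarith
  refine key2.trans ?_
  rw [mul_assoc]
  refine mul_le_mul_of_nonneg_left ?_ hC.le
  rw [← integral_const_mul]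
  have iV : Integrable (fun x => Vr μ (fderiv ℝ f x)) μ := by
    have hc : Continuous fun x => Vr μ (fderiv ℝ f x) :=
      (Vr_cont hmom).comp (hf.diff.continuous_fderiv one_ne_zero)
    refine int_of_bdd (B := L ^ 2 * ∫ x, ‖x‖ ^ 2 ∂μ) hc.measurable fun x => ?_
    have h1 := Vr_bd hmom (fderiv ℝ f x)
    rw [abs_of_nonneg h1.1]
    exact h1.2.trans (mul_le_mul_of_nonneg_right (pow_le_pow_left₀ (norm_nonneg _) (hf.grad x) 2)
      (integral_nonneg fun x => sq_nonneg _))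
  refine integral_mono (ig.const_mul _) iV fun x => ?_
  simp only
  rw [mul_comm, hs0]
  exact h.var hmom i0 _

end Pool.Agent.X166.DS
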